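import Pool.Agent.Q35.HE.Def

namespace Q35.HE

open Finset
open scoped Pointwise

variable {n : ℕ}

theorem dot_ee (u : Fin n → ℝ) (a b : Fin n) : u ⬝ᵥ ee ℝ a b = u a - u b := by
  simp [ee, dotProduct_sub]

theorem dot_ee_int (u : Fin n → ℤ) (a b : Fin n) : u ⬝ᵥ ee ℤ a b = u a - u b := by
  simp [ee, dotProduct_sub]

theorem ee_swap (a b : Fin n) : ee ℝ b a = -ee ℝ a b := by
  simp [ee]

theorem ee_self (a : Fin n) : ee ℝ a a = 0 := by
  simp [ee]

theorem ee_add (a b c : Fin n) : ee ℝ a b + ee ℝ b c = ee ℝ a c := by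
  simp [ee]

theorem sum_ee (a b : Fin n) : ∑ x, ee ℝ a b x = 0 := by
  simp [ee, Finset.sum_sub_distrib]

theorem ee_cast (a b : Fin n) : ee ℝ a b = fun x => ((ee ℤ a b x : ℤ) : ℝ) := by
  funext x
  simp only [ee, Pi.sub_apply, Int.cast_sub]
  by_cases h1 : x = a <;> by_cases h2 : x = b <;> simp [Pi.single_apply, h1, h2]

/-- The hyperplane `∑ x = 0`. -/
def VV (n : ℕ) : Submodule ℝ (Fin n → ℝ) where
  carrier := {x | ∑ a, x a = 0}
  add_mem' := by
    intro x y hx hy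
    simp only [Set.mem_setOf_eq, Pi.add_apply, Finset.sum_add_distrib] at *
    rw [hx, hy, add_zero]
  zero_mem' := by simp
  smul_mem' := by
    intro c x hx
    simp only [Set.mem_setOf_eq, Pi.smul_apply, smul_eq_mul, ← Finset.mul_sum] at *
    rw [hx, mul_zero]

theorem mem_VV {x : Fin n → ℝ} : x ∈ VV n ↔ ∑ a, x a = 0 := Iff.rfl

theorem ee_mem_VV (a b : Fin n) : ee ℝ a b ∈ VV n := sum_ee a b

theorem finrank_VV (hn : 0 < n) : Module.finrank ℝ (VV n) + 1 = n := by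
  let φ : (Fin n → ℝ) →ₗ[ℝ] ℝ := ∑ a, LinearMap.proj a
  have hφ : ∀ x, φ x = ∑ a, x a := by
    intro x
    simp [φ, LinearMap.sum_apply]
  have hk : LinearMap.ker φ = VV n := by
    ext x
    rw [LinearMap.mem_ker, hφ, mem_VV]
  have hs : LinearMap.range φ = ⊤ := by
    rw [LinearMap.range_eq_top]
    intro c
    refine ⟨Pi.single ⟨0, hn⟩ c, ?_⟩
    rw [hφ]
    simp
  have h := LinearMap.finrank_range_add_finrank_ker φ
  rw [hs, hk, finrank_top, Module.finrank_self, Module.finrank_fin_fun] at h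
  omega

theorem Rt_subset_VV (H : SimpleGraph (Fin n)) : Rt H ⊆ (VV n : Set (Fin n → ℝ)) := by
  rintro x ⟨a, b, -, rfl⟩
  exact ee_mem_VV a b

theorem Rt_finite (H : SimpleGraph (Fin n)) : (Rt H).Finite := by
  apply (Set.finite_range (fun p : Fin n × Fin n => ee ℝ p.1 p.2)).subset
  rintro x ⟨a, b, -, rfl⟩
  exact ⟨(a, b), rfl⟩

theorem neg_mem_Rt {H : SimpleGraph (Fin n)} {x : Fin n → ℝ} (hx : x ∈ Rt H) : -x ∈ Rt H := by
  obtain ⟨a, b, hab, rfl⟩ := hx
  exact ⟨b, a, hab.symm, (ee_swap a b).symm⟩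

theorem neg_mem_KK {H : SimpleGraph (Fin n)} {u : Fin n → ℝ} (hu : u ∈ KK H) : -u ∈ KK H := by
  intro a b hab
  have := hu b a hab.symm
  simp only [Pi.neg_apply]
  linarith

theorem KK_root {H : SimpleGraph (Fin n)} {u : Fin n → ℝ} (hu : u ∈ KK H) {w : Fin n → ℝ}
    (hw : w ∈ Rt H) : u ⬝ᵥ w ≤ 1 := by
  obtain ⟨a, b, hab, rfl⟩ := hw
  rw [dot_ee]
  exact hu a b hab

theorem mem_KK_iff {H : SimpleGraph (Fin n)} {u : Fin n → ℝ} :
    u ∈ KK H ↔ ∀ w ∈ Rt H, u ⬝ᵥ w ≤ 1 := by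
  refine ⟨fun hu w hw => KK_root hu hw, fun h a b hab => ?_⟩
  have := h _ ⟨a, b, hab, rfl⟩
  rwa [dot_ee] at this

theorem SEP_eq (H : SimpleGraph (Fin n)) : SEP H = convexHull ℝ (Rt H) := rfl

theorem SEP_subset_VV (H : SimpleGraph (Fin n)) : SEP H ⊆ (VV n : Set (Fin n → ℝ)) := by
  rw [SEP_eq]
  exact convexHull_min (Rt_subset_VV H) (VV n).convex

theorem halfspace_convex (u : Fin n → ℝ) (c : ℝ) : Convex ℝ {x : Fin n → ℝ | u ⬝ᵥ x ≤ c} := by
  intro x hx y hy s t hs ht hst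
  simp only [Set.mem_setOf_eq, dotProduct_add, dotProduct_smul, smul_eq_mul] at *
  calc s * u ⬝ᵥ x + t * u ⬝ᵥ y ≤ s * c + t * c := by
        gcongr
    _ = c := by rw [← add_mul, hst, one_mul]

theorem SEP_le {H : SimpleGraph (Fin n)} {u : Fin n → ℝ} {c : ℝ} (h : ∀ w ∈ Rt H, u ⬝ᵥ w ≤ c) :
    ∀ x ∈ SEP H, u ⬝ᵥ x ≤ c := by
  intro x hx
  have : SEP H ⊆ {x : Fin n → ℝ | u ⬝ᵥ x ≤ c} := by
    rw [SEP_eq]
    exact convexHull_min h (halfspace_convex u c)
  exact this hx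

theorem neg_mem_SEP {H : SimpleGraph (Fin n)} {x : Fin n → ℝ} (hx : x ∈ SEP H) : -x ∈ SEP H := by
  have h1 : SEP H ⊆ -SEP H := by
    have hc : Convex ℝ (-SEP H) := by
      rw [SEP_eq]
      exact (convex_convexHull ℝ (Rt H)).neg
    rw [SEP_eq] at hc ⊢
    refine convexHull_min ?_ hc
    intro w hw
    rw [Set.mem_neg]
    exact subset_convexHull ℝ _ (neg_mem_Rt hw)
  exact h1 hx

/-- A function which is constant along the edges of a connected graph is constant. -/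
theorem const_of_conn {H : SimpleGraph (Fin n)} (hc : H.Connected) {f : Fin n → ℝ}
    (hf : ∀ a b, H.Adj a b → f a = f b) (a b : Fin n) : f a = f b := by
  have h := hc.preconnected a b
  rw [SimpleGraph.reachable_iff_reflTransGen] at h
  induction h with
  | refl => rfl
  | tail _ h2 ih => exact ih.trans (hf _ _ h2)

theorem dot_const {f : Fin n → ℝ} (hf : ∀ a b, f a = f b) {x : Fin n → ℝ} (hx : x ∈ VV n) :
    f ⬝ᵥ x = 0 := by
  rcases Nat.eq_zero_or_pos n with h0 | h0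
  · subst h0
    simp [dotProduct]
  · have : f = fun _ => f ⟨0, h0⟩ := by
      funext a
      exact hf a _
    rw [this]
    simp only [dotProduct]
    rw [← Finset.mul_sum, mem_VV.1 hx, mul_zero]

/-- The dual vectors of a linearly independent set of roots can be chosen with values `0` and
`1`. -/
theorem exists_dual {H : SimpleGraph (Fin n)} (σ : Finset (Fin n → ℝ)) (hr : ∀ w ∈ σ, w ∈ Rt H)
    (hli : LinearIndependent ℝ (fun w : (σ : Set (Fin n → ℝ)) => (w : Fin n → ℝ)))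
    (w : Fin n → ℝ) (hw : w ∈ σ) :
    ∃ f : Fin n → ℤ, (∀ a, f a = 0 ∨ f a = 1) ∧
      (fun a => (f a : ℝ)) ⬝ᵥ w = 1 ∧
      ∀ w' ∈ σ, w' ≠ w → (fun a => (f a : ℝ)) ⬝ᵥ w' = 0 := by
  classical
  obtain ⟨a0, b0, hab0, hw0⟩ := hr w hw
  let r : Fin n → Fin n → Prop := fun x y => ∃ w' ∈ σ, w' ≠ w ∧ w' = ee ℝ x y
  have hspan : ∀ x y, Relation.EqvGen r x y →
      ee ℝ x y ∈ Submodule.span ℝ ((σ : Set (Fin n → ℝ)) \ {w}) := by
    intro x y h
    induction h with
    | rel x y h =>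
      obtain ⟨w', hw', hne, rfl⟩ := h
      exact Submodule.subset_span ⟨hw', hne⟩
    | refl x => rw [ee_self]; exact Submodule.zero_mem _
    | symm x y _ ih => rw [ee_swap]; exact Submodule.neg_mem _ ih
    | trans x y z _ _ ih1 ih2 => rw [← ee_add x y z]; exact Submodule.add_mem _ ih1 ih2
  have hnot : ¬ Relation.EqvGen r a0 b0 := by
    intro h
    have h1 := hspan _ _ h
    rw [← hw0] at h1
    have h2 := linearIndependent_iff_notMem_span.1 hli ⟨w, hw⟩
    apply h2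
    have : (fun w : (σ : Set (Fin n → ℝ)) => (w : Fin n → ℝ)) '' (Set.univ \ {⟨w, hw⟩}) =
        (σ : Set (Fin n → ℝ)) \ {w} := by
      ext x
      constructor
      · rintro ⟨⟨y, hy⟩, ⟨-, hne⟩, rfl⟩
        refine ⟨hy, ?_⟩
        intro h
        apply hne
        simp only [Set.mem_singleton_iff] at h ⊢
        exact Subtype.ext h
      · rintro ⟨hx, hne⟩
        refine ⟨⟨x, hx⟩, ⟨trivial, ?_⟩, rfl⟩
        intro h
        apply hne
        simp only [Set.mem_singleton_iff] at h ⊢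
        exact congrArg Subtype.val h
    rw [this]
    exact h1
  refine ⟨fun x => if Relation.EqvGen r a0 x then 1 else 0, fun a => ?_, ?_, ?_⟩
  · by_cases h : Relation.EqvGen r a0 a
    · right; simp [h]
    · left; simp [h]
  · rw [hw0, dot_ee]
    have h0 : Relation.EqvGen r a0 a0 := Relation.EqvGen.refl _
    simp [h0, hnot]
  · intro w' hw' hne
    obtain ⟨x, y, hxy, hw1⟩ := hr w' hw'
    have hrel : Relation.EqvGen r x y := Relation.EqvGen.rel _ _ ⟨w', hw', hne, hw1⟩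
    rw [hw1, dot_ee]
    have : Relation.EqvGen r a0 x ↔ Relation.EqvGen r a0 y :=
      ⟨fun h => h.trans _ _ _ hrel, fun h => h.trans _ _ _ (hrel.symm _ _)⟩
    simp [this]

/-- `n - 1` linearly independent vectors span the hyperplane. -/
theorem span_eq_VV (σ : Finset (Fin n → ℝ)) (hV : ∀ w ∈ σ, w ∈ VV n)
    (hli : LinearIndependent ℝ (fun w : (σ : Set (Fin n → ℝ)) => (w : Fin n → ℝ)))
    (hn : 0 < n) (hcard : σ.card = n - 1) :
    Submodule.span ℝ (σ : Set (Fin n → ℝ)) = VV n := by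
  apply Submodule.eq_of_le_of_finrank_eq
  · rw [Submodule.span_le]
    exact hV
  · have h1 := finrank_VV hn
    have h2 : Module.finrank ℝ (Submodule.span ℝ (σ : Set (Fin n → ℝ))) = σ.card := by
      have := finrank_span_eq_card hli
      rw [Subtype.range_coe] at this
      rw [this]
      simp
    omega

/-- Representation in a dual basis. -/
theorem rep_of_dual (σ : Finset (Fin n → ℝ)) (f : (Fin n → ℝ) → (Fin n → ℤ))
    (h1 : ∀ w ∈ σ, (fun a => (f w a : ℝ)) ⬝ᵥ w = 1)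
    (h0 : ∀ w ∈ σ, ∀ w' ∈ σ, w' ≠ w → (fun a => (f w a : ℝ)) ⬝ᵥ w' = 0)
    {x : Fin n → ℝ} (hx : x ∈ Submodule.span ℝ (σ : Set (Fin n → ℝ))) :
    x = ∑ w ∈ σ, ((fun a => (f w a : ℝ)) ⬝ᵥ x) • w := by
  classical
  obtain ⟨c, -, hc⟩ := Submodule.mem_span_finset.1 hx
  have key : ∀ w ∈ σ, (fun a => (f w a : ℝ)) ⬝ᵥ x = c w := by
    intro w hw
    rw [← hc, dotProduct_sum]
    rw [Finset.sum_eq_single w]
    · rw [dotProduct_smul, h1 w hw, smul_eq_mul, mul_one]
    · intro w' hw' hne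
      rw [dotProduct_smul, h0 w hw w' hw' hne, smul_zero]
    · intro h
      exact absurd hw h
  rw [Finset.sum_congr rfl (fun w hw => by rw [key w hw])]
  exact hc.symm

end Q35.HE
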