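import Mathlib

namespace Q35.HE

open Finset

/-- The coefficients of `(1 + X + X^2 + ...)^k`. -/
theorem coeff_mk_one_pow {κ : Type*} [Fintype κ] [DecidableEq κ] (m : ℕ) :
    PowerSeries.coeff m ((PowerSeries.mk (fun _ => (1 : ℤ))) ^ Fintype.card κ) =
      ((finsuppAntidiag (Finset.univ : Finset κ) m).card : ℤ) := by
  have h1 : (PowerSeries.mk (fun _ => (1 : ℤ))) ^ Fintype.card κ =
      ∏ _i : κ, PowerSeries.mk (fun _ => (1 : ℤ)) := by
    rw [Finset.prod_const, Finset.card_univ]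
  rw [h1, PowerSeries.coeff_prod]
  simp only [PowerSeries.coeff_mk, Finset.prod_const_one, Finset.sum_const, nsmul_eq_mul, mul_one]

section
variable {ι : Type} [Fintype ι] [DecidableEq ι]

/-- The condition on the integer coordinates. -/
def Cond (a e : ι → ℤ) (h m : ℤ) (X : ι → ℤ) : Prop :=
  0 < ∑ i, X i - m ∧ ∀ i, 0 ≤ h * X i - (∑ i, X i - m) * a i ∧
    (e i = 1 → 0 < h * X i - (∑ i, X i - m) * a i)

/-- The index set of the count. -/
def BB (ι : Type) [Fintype ι] [DecidableEq ι] (h s0 m : ℕ) : Finset (Σ _ : ℕ, (Option ι →₀ ℕ)) :=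
  ((range h).filter (fun j => s0 + 1 + j ≤ m)).sigma
    (fun j => finsuppAntidiag (Finset.univ : Finset (Option ι)) (m - (s0 + 1 + j)))

theorem mem_BB {h s0 m : ℕ} {q : Σ _ : ℕ, (Option ι →₀ ℕ)} :
    q ∈ BB ι h s0 m ↔ q.1 < h ∧ q.2 none + ∑ i, q.2 (some i) + (s0 + 1 + q.1) = m := by
  rw [BB, Finset.mem_sigma, Finset.mem_filter, Finset.mem_range, Finset.mem_finsuppAntidiag,
    Fintype.sum_option]
  constructor
  · rintro ⟨⟨h1, h2⟩, h3, -⟩
    exact ⟨h1, by omega⟩
  · rintro ⟨h1, h2⟩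
    exact ⟨⟨h1, by omega⟩, by omega, Finset.subset_univ _⟩

theorem card_BB (h s0 m : ℕ) : ((BB ι h s0 m).card : ℤ) =
    PowerSeries.coeff m (PowerSeries.X ^ (s0 + 1) * (∑ j ∈ range h, PowerSeries.X ^ j) *
      (PowerSeries.mk (fun _ => (1 : ℤ))) ^ (Fintype.card ι + 1)) := by
  rw [Finset.mul_sum, Finset.sum_mul, map_sum, BB, Finset.card_sigma, Finset.sum_filter]
  push_cast
  apply Finset.sum_congr rfl
  intro j _
  rw [← pow_add, PowerSeries.coeff_X_pow_mul']
  by_cases hj : s0 + 1 + j ≤ m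
  · rw [if_pos hj, if_pos hj, ← Fintype.card_option, coeff_mk_one_pow]
  · rw [if_neg hj, if_neg hj]

theorem count_abs (a e : ι → ℤ)
    (he : ∀ i, (e i = 0 ∧ 0 ≤ a i ∧ a i ≤ 1) ∨ (e i = 1 ∧ -1 ≤ a i ∧ a i ≤ 0))
    (h : ℕ) (hh : 1 ≤ h) (hsum : ∑ i, a i = h + 1) (s0 : ℕ) (hs0 : ∑ i, e i = s0) (m : ℕ) :
    Nonempty ({X : ι → ℤ // Cond a e h m X} ≃ {q // q ∈ BB ι h s0 m}) := by
  have hF : ∀ q ∈ BB ι h s0 m, Cond a e h m
      (fun i => (q.2 (some i) : ℤ) + ((q.2 none : ℤ) + 1) * a i + e i) := by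
    rintro ⟨j, p⟩ hq
    rw [mem_BB] at hq
    obtain ⟨hj, hp⟩ := hq
    simp only at hj hp
    have hs : ∑ i, ((p (some i) : ℤ) + ((p none : ℤ) + 1) * a i + e i) =
        ∑ i, (p (some i) : ℤ) + ((p none : ℤ) + 1) * (h + 1) + s0 := by
      rw [Finset.sum_add_distrib, Finset.sum_add_distrib, ← Finset.mul_sum, hsum, hs0]
    have hm : (m : ℤ) = p none + ∑ i, (p (some i) : ℤ) + (s0 + 1 + j) := by
      rw [← hp]; push_cast; rfl
    have hl : ∑ i, ((p (some i) : ℤ) + ((p none : ℤ) + 1) * a i + e i) - m =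
        ((p none : ℤ) + 1) * h - j := by
      rw [hs, hm]; ring
    have hjh : (j : ℤ) + 1 ≤ h := by exact_mod_cast hj
    have hp0 : (0 : ℤ) ≤ p none := by positivity
    refine ⟨?_, fun i => ?_⟩
    · simp only
      rw [hl]
      nlinarith
    · simp only
      rw [hl]
      have hpi : (0 : ℤ) ≤ p (some i) := by positivity
      have hh0 : (1 : ℤ) ≤ h := by exact_mod_cast hh
      have e1 : (h : ℤ) * ((p (some i) : ℤ) + ((p none : ℤ) + 1) * a i + e i) -
          (((p none : ℤ) + 1) * h - j) * a i = h * p (some i) + h * e i + j * a i := by ring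
      rw [e1]
      have hhp : 0 ≤ (h : ℤ) * p (some i) := by positivity
      rcases he i with ⟨h1, h2, h3⟩ | ⟨h1, h2, h3⟩
      · rw [h1]
        refine ⟨?_, fun h => by norm_num at h⟩
        have : 0 ≤ (j : ℤ) * a i := by positivity
        linarith
      · rw [h1]
        have : -(j : ℤ) ≤ (j : ℤ) * a i := by nlinarith
        refine ⟨by linarith, fun _ => by linarith⟩
  refine ⟨(Equiv.ofBijective (fun q : {q // q ∈ BB ι h s0 m} =>
    (⟨_, hF q.1 q.2⟩ : {X : ι → ℤ // Cond a e h m X})) ⟨?_, ?_⟩).symm⟩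
  · rintro ⟨⟨j, p⟩, hq⟩ ⟨⟨j', p'⟩, hq'⟩ heq
    have heq' : (fun i => (p (some i) : ℤ) + ((p none : ℤ) + 1) * a i + e i) =
        (fun i => (p' (some i) : ℤ) + ((p' none : ℤ) + 1) * a i + e i) := congrArg Subtype.val heq
    rw [mem_BB] at hq hq'
    obtain ⟨hj, hp⟩ := hq
    obtain ⟨hj', hp'⟩ := hq'
    simp only at hj hp hj' hp'
    have hs := congrArg (fun F => ∑ i, F i) heq'
    simp only at hs
    rw [Finset.sum_add_distrib, Finset.sum_add_distrib, ← Finset.mul_sum, hsum, hs0,
      Finset.sum_add_distrib, Finset.sum_add_distrib, ← Finset.mul_sum, hsum, hs0] at hs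
    have hm : (m : ℤ) = p none + ∑ i, (p (some i) : ℤ) + (s0 + 1 + j) := by
      rw [← hp]; push_cast; rfl
    have hm' : (m : ℤ) = p' none + ∑ i, (p' (some i) : ℤ) + (s0 + 1 + j') := by
      rw [← hp']; push_cast; rfl
    have hl : ((p none : ℤ) + 1) * h - j = ((p' none : ℤ) + 1) * h - j' := by
      have e1 : ((p none : ℤ) + 1) * h - j = (∑ i, (p (some i) : ℤ) + ((p none : ℤ) + 1) * (h + 1) + s0) - m := by
        rw [hm]; ring
      have e2 : ((p' none : ℤ) + 1) * h - j' = (∑ i, (p' (some i) : ℤ) + ((p' none : ℤ) + 1) * (h + 1) + s0) - m := by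
        rw [hm']; ring
      rw [e1, e2, hs]
    have hjh : (j : ℤ) < h := by exact_mod_cast hj
    have hjh' : (j' : ℤ) < h := by exact_mod_cast hj'
    have hj0 : (0 : ℤ) ≤ j := by positivity
    have hj0' : (0 : ℤ) ≤ j' := by positivity
    have hP : (p none : ℤ) = p' none := by
      have h1 : ((p none : ℤ) - p' none) * h = j - j' := by linarith
      have h2 : ((p none : ℤ) - p' none) * h < 1 * h := by rw [h1]; linarith
      have h3 : (-1) * (h : ℤ) < ((p none : ℤ) - p' none) * h := by rw [h1]; linarith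
      have hh0 : (0 : ℤ) < h := by linarith
      have h4 := lt_of_mul_lt_mul_right h2 hh0.le
      have h5 := lt_of_mul_lt_mul_right h3 hh0.le
      omega
    have hjj : (j : ℤ) = j' := by rw [hP] at hl; linarith
    have hjj' : j = j' := by exact_mod_cast hjj
    have hpp : p = p' := by
      ext o
      cases o with
      | none => exact_mod_cast hP
      | some i =>
        have := congrFun heq' i
        rw [hP] at this
        have h2 : (p (some i) : ℤ) = p' (some i) := by linarith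
        exact_mod_cast h2
    subst hjj' hpp
    rfl
  · rintro ⟨X, hX0, hX⟩
    set l : ℤ := ∑ i, X i - m with hl
    have hh0 : (0 : ℤ) < h := by exact_mod_cast hh
    set P : ℤ := (l - 1) / h with hP
    have hP0 : 0 ≤ P := Int.ediv_nonneg (by omega) hh0.le
    have hdiv := Int.mul_ediv_add_emod (l - 1) h
    have hmod0 := Int.emod_nonneg (l - 1) hh0.ne'
    have hmod1 := Int.emod_lt_of_pos (l - 1) hh0
    rw [← hP] at hdiv
    set J : ℤ := (P + 1) * h - l with hJ
    have hJ0 : 0 ≤ J := by nlinarith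
    have hJ1 : J < h := by nlinarith
    have hp : ∀ i, 0 ≤ X i - (P + 1) * a i - e i := by
      intro i
      obtain ⟨h1, h2⟩ := hX i
      have e1 : (h : ℤ) * (X i - (P + 1) * a i - e i) = (h * X i - l * a i) - J * a i - h * e i := by
        rw [hJ]; ring
      have h3 : (h : ℤ) * (-1) < h * (X i - (P + 1) * a i - e i) := by
        rw [e1]
        rcases he i with ⟨g1, g2, g3⟩ | ⟨g1, g2, g3⟩
        · rw [g1]
          nlinarith
        · have h4 := h2 g1
          rw [g1]
          nlinarith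
      have := lt_of_mul_lt_mul_left h3 hh0.le
      omega
    let p : Option ι →₀ ℕ := Finsupp.equivFunOnFinite.symm
      (fun o => match o with
        | none => P.toNat
        | some i => (X i - (P + 1) * a i - e i).toNat)
    have hp1 : p none = P.toNat := rfl
    have hp2 : ∀ i, p (some i) = (X i - (P + 1) * a i - e i).toNat := fun i => rfl
    have hp1' : (p none : ℤ) = P := by rw [hp1]; exact Int.toNat_of_nonneg hP0
    have hp2' : ∀ i, (p (some i) : ℤ) = X i - (P + 1) * a i - e i := fun i => by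
      rw [hp2]; exact Int.toNat_of_nonneg (hp i)
    refine ⟨⟨⟨J.toNat, p⟩, ?_⟩, ?_⟩
    · rw [mem_BB]
      simp only
      constructor
      · omega
      · have hs : ∑ i, (p (some i) : ℤ) = ∑ i, X i - (P + 1) * (h + 1) - s0 := by
          rw [Finset.sum_congr rfl (fun i _ => hp2' i), Finset.sum_sub_distrib,
            Finset.sum_sub_distrib, ← Finset.mul_sum, hsum, hs0]
        have hJ' : ((J.toNat : ℕ) : ℤ) = J := Int.toNat_of_nonneg hJ0
        have : ((p none : ℤ)) + ∑ i, (p (some i) : ℤ) + ((s0 : ℤ) + 1 + (J.toNat : ℕ)) = m := by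
          rw [hp1', hs, hJ', hJ, hl]; ring
        exact_mod_cast this
    · apply Subtype.ext
      funext i
      simp only
      rw [hp2', hp1']
      ring

end

end Q35.HE
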