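import Mathlib

/-!
# Symmetric edge polytopes and the `h*`-polynomials under edge deletion: definitions
-/

namespace Q35.HE

open Finset Polynomial
open scoped Pointwise

/-- The vector `e_a - e_b` with entries in the ring `R`. -/
def ee (R : Type) [Ring R] {n : ℕ} (a b : Fin n) : Fin n → R := Pi.single a 1 - Pi.single b 1

/-- The symmetric edge polytope `P_G = conv {±(e_a - e_b) : {a,b} an edge of G}`. -/
def SEP {n : ℕ} (G : SimpleGraph (Fin n)) : Set (Fin n → ℝ) :=
  convexHull ℝ {x | ∃ a b, G.Adj a b ∧ x = ee ℝ a b}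

/-- The number of integer points of the dilate `m P`. -/
noncomputable def latCount {n : ℕ} (P : Set (Fin n → ℝ)) (m : ℕ) : ℕ :=
  Nat.card {x : Fin n → ℤ // (fun a => (x a : ℝ)) ∈ (m : ℝ) • P}

/-- The `h*`-polynomial of a `d`-dimensional lattice polytope as an element of `ℤ⟦t⟧`:
`(1 - t)^(d+1) * (1 + ∑_{m ≥ 1} |mP ∩ ℤ^n| t^m)`. -/
noncomputable def hstar {n : ℕ} (d : ℕ) (P : Set (Fin n → ℝ)) : PowerSeries ℤ :=
  (1 - PowerSeries.X) ^ (d + 1) *
    PowerSeries.mk (fun m => if m = 0 then 1 else (latCount P m : ℤ))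

/-- `F` is a facet of the `(n-1)`-dimensional polytope `P` in `V = {x : ∑ x_a = 0}` that is
visible from the point `v` of `V`: `F` is the face of `P` where the functional `u` takes its
maximum `c`, the dimension of `F` is `n - 2`, and the affine hull `u = c` of `F` in `V` strictly
separates `v` from `P`, that is `c < u(v)`. -/
def IsVisibleFacet {n : ℕ} (P : Set (Fin n → ℝ)) (v : Fin n → ℝ) (F : Set (Fin n → ℝ)) : Prop :=
  ∃ (u : Fin n → ℝ) (c : ℝ), (∀ x ∈ P, u ⬝ᵥ x ≤ c) ∧ F = {x | x ∈ P ∧ u ⬝ᵥ x = c} ∧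
    Module.finrank ℝ (vectorSpan ℝ F) = n - 2 ∧ c < u ⬝ᵥ v

/-- `Γ` is (the set of facets, each given by its set of vertices, of) a triangulation of the union
of the facets of `P` visible from `v` into `(n-2)`-dimensional simplices with integer vertices. -/
structure IsTriangulation {n : ℕ} (P : Set (Fin n → ℝ)) (v : Fin n → ℝ)
    (Γ : Finset (Finset (Fin n → ℝ))) : Prop where
  /-- every simplex has `n - 1` vertices -/
  card : ∀ σ ∈ Γ, σ.card = n - 1
  /-- the vertices of a simplex are affinely independent -/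
  indep : ∀ σ ∈ Γ, AffineIndependent ℝ (fun w : (σ : Set (Fin n → ℝ)) => (w : Fin n → ℝ))
  /-- the vertices are integer points -/
  lattice : ∀ σ ∈ Γ, ∀ w ∈ σ, ∃ z : Fin n → ℤ, w = fun a => (z a : ℝ)
  /-- two simplices intersect in the simplex of their common vertices -/
  inter : ∀ σ ∈ Γ, ∀ τ ∈ Γ, convexHull ℝ (σ : Set (Fin n → ℝ)) ∩ convexHull ℝ (τ : Set (Fin n → ℝ))
    ⊆ convexHull ℝ ((σ : Set (Fin n → ℝ)) ∩ (τ : Set (Fin n → ℝ)))
  /-- the simplices cover exactly the union of the visible facets -/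
  cover : (⋃ σ ∈ Γ, convexHull ℝ (σ : Set (Fin n → ℝ))) = ⋃₀ {F | IsVisibleFacet P v F}

/-- `h` is the lattice distance of the lattice point `v` from the affine hull of `σ`: for some
integer functional `u` which is primitive on `Λ = ℤ^n ∩ V` (it takes the value `1` on `Λ`), the
affine hull of `σ` is `{x ∈ V : u(x) = c}` and `h = |u(v) - c|`. -/
def IsLatDist {n : ℕ} (v : Fin n → ℤ) (σ : Finset (Fin n → ℝ)) (h : ℕ) : Prop :=
  ∃ (u : Fin n → ℤ) (c : ℤ), (∃ x : Fin n → ℤ, ∑ a, x a = 0 ∧ u ⬝ᵥ x = 1) ∧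
    ((affineSpan ℝ (σ : Set (Fin n → ℝ)) : AffineSubspace ℝ (Fin n → ℝ)) : Set (Fin n → ℝ)) =
      {x | ∑ a, x a = 0 ∧ ∑ a, (u a : ℝ) * x a = c} ∧
    (h : ℤ) = |u ⬝ᵥ v - c|

/-- The lattice distance `h_σ` of `v` from the affine hull of `σ`. -/
noncomputable def latDist {n : ℕ} (v : Fin n → ℤ) (σ : Finset (Fin n → ℝ)) : ℕ :=
  sInf {h | IsLatDist v σ h}

open Classical in
/-- All faces (the empty face among them) of the simplicial complex with the set `S` of facets.
If `S` is empty there are no faces at all. -/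
noncomputable def faces {n : ℕ} (S : Finset (Finset (Fin n → ℝ))) : Finset (Finset (Fin n → ℝ)) :=
  S.biUnion Finset.powerset

/-- The polynomial `h_Δ(t) = ∑_{i=0}^d f_{i-1}(Δ) t^i (1-t)^{d-i}` of the complex `Δ` with the set
`S` of facets; it is `0` if `S` is empty. -/
noncomputable def hPoly {n : ℕ} (d : ℕ) (S : Finset (Finset (Fin n → ℝ))) : ℤ[X] :=
  ∑ i ∈ range (d + 1), (((faces S).filter (fun τ => τ.card = i)).card : ℤ[X]) * X ^ i *
    (1 - X) ^ (d - i)

/-- `D_s = h_{Γ_s} - h_{Γ_{s-1}}` for the value `c = h_s` of the lattice distance: `Γ_s` is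
generated by the facets at distance `≥ c`, and `Γ_{s-1}` by those at distance `> c`. -/
noncomputable def DD {n : ℕ} (v : Fin n → ℤ) (Γ : Finset (Finset (Fin n → ℝ))) (c : ℕ) : ℤ[X] :=
  hPoly (n - 1) (Γ.filter (fun σ => c ≤ latDist v σ)) -
    hPoly (n - 1) (Γ.filter (fun σ => c < latDist v σ))

/-- `q_s(t) = D_s(t) (1 + t + ... + t^(h_s - 1))` for the value `c = h_s` of the distance. -/
noncomputable def qq {n : ℕ} (v : Fin n → ℤ) (Γ : Finset (Finset (Fin n → ℝ))) (c : ℕ) : ℤ[X] :=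
  DD v Γ c * ∑ k ∈ range c, X ^ k

/-- `p(t) = t^d p(1/t)`. -/
def IsPalindromic (d : ℕ) (p : ℤ[X]) : Prop :=
  ∀ k, p.coeff k = if k ≤ d then p.coeff (d - k) else 0

/-- The roots `e_a - e_b`, `ab` an edge of `H`. -/
def Rt {n : ℕ} (H : SimpleGraph (Fin n)) : Set (Fin n → ℝ) :=
  {x | ∃ a b, H.Adj a b ∧ x = ee ℝ a b}

/-- The polar dual: the 1-Lipschitz functions on the vertices. -/
def KK {n : ℕ} (H : SimpleGraph (Fin n)) : Set (Fin n → ℝ) := {u | ∀ a b, H.Adj a b → u a - u b ≤ 1}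

end Q35.HE
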