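import Pool.Agent.Q35.HE.HPoly
import Pool.Agent.Q35.HE.Count

namespace Q35.HE

open Finset Filter Topology
open scoped Pointwise

variable {n : ℕ}

section
variable {H : SimpleGraph (Fin n)} {v : Fin n → ℤ} {Γ : Finset (Finset (Fin n → ℝ))}
    {f : Finset (Fin n → ℝ) → (Fin n → ℝ) → Fin n → ℤ}

/-- `x ∈ m conv(P, v)`, not in `m P`. -/
def Qp (H : SimpleGraph (Fin n)) (v : Fin n → ℤ) (m : ℕ) (x : Fin n → ℤ) : Prop :=
  ∑ a, x a = 0 ∧ (∃ u ∈ KK H, (m : ℝ) < u ⬝ᵥ rr x) ∧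
    ∃ s : ℝ, 0 < s ∧ s ≤ m ∧ ∀ u ∈ KK H, u ⬝ᵥ rr x - s * (u ⬝ᵥ rr v) ≤ m - s

/-- `x` belongs to the part of the simplex `σ`. -/
def SS (f : Finset (Fin n → ℝ) → (Fin n → ℝ) → Fin n → ℤ) (v : Fin n → ℤ) (g : Fin n → ℝ)
    (m : ℕ) (σ : Finset (Fin n → ℝ)) (x : Fin n → ℤ) : Prop :=
  ∑ a, x a = 0 ∧ 0 < ∑ w ∈ σ, f σ w ⬝ᵥ x - m ∧ ∀ w ∈ σ,
    0 ≤ hh f v σ * (f σ w ⬝ᵥ x) - (∑ w ∈ σ, f σ w ⬝ᵥ x - m) * (f σ w ⬝ᵥ v) ∧
    (w ∈ II f v g σ → 0 < hh f v σ * (f σ w ⬝ᵥ x) - (∑ w ∈ σ, f σ w ⬝ᵥ x - m) * (f σ w ⬝ᵥ v))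

theorem us_rr' (σ : Finset (Fin n → ℝ)) (x : Fin n → ℤ) :
    us f σ (rr x) = ((∑ w ∈ σ, f σ w ⬝ᵥ x : ℤ) : ℝ) := by
  rw [us_apply]
  push_cast
  apply Finset.sum_congr rfl
  intro w _
  rw [cc_rr]

theorem Good.level_of_SS (hG : Good H v Γ f) {g : Fin n → ℝ} {m : ℕ}
    {σ : Finset (Fin n → ℝ)} (hσ : σ ∈ Γ) {x : Fin n → ℤ} (h : SS f v g m σ x) :
    ∃ l : ℝ, 0 < l ∧ Asg f v g σ (rr x - l • rr v) ∧ us f σ (rr x - l • rr v) = m - l := by
  obtain ⟨-, h1, h2⟩ := h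
  have hh1 : (0 : ℝ) < hh f v σ := by
    have := hG.one_le_hh hσ
    have : 0 < hh f v σ := by omega
    exact_mod_cast this
  set L : ℤ := ∑ w ∈ σ, f σ w ⬝ᵥ x - m with hL
  have hL0 : (0 : ℝ) < L := by exact_mod_cast h1
  refine ⟨(L : ℝ) / hh f v σ, by positivity, ⟨fun w hw => ?_, fun w hw hneg => ?_⟩, ?_⟩
  · have h3 : (0 : ℝ) ≤ hh f v σ * ((f σ w ⬝ᵥ x : ℤ) : ℝ) - L * ((f σ w ⬝ᵥ v : ℤ) : ℝ) := by
      exact_mod_cast (h2 w hw).1
    rw [map_sub, map_smul, cc_rr, cc_rr, smul_eq_mul]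
    have : ((f σ w ⬝ᵥ x : ℤ) : ℝ) - (L : ℝ) / hh f v σ * ((f σ w ⬝ᵥ v : ℤ) : ℝ) =
        (hh f v σ * ((f σ w ⬝ᵥ x : ℤ) : ℝ) - L * ((f σ w ⬝ᵥ v : ℤ) : ℝ)) / hh f v σ := by
      field_simp
    rw [this]
    positivity
  · have h3 : (0 : ℝ) < hh f v σ * ((f σ w ⬝ᵥ x : ℤ) : ℝ) - L * ((f σ w ⬝ᵥ v : ℤ) : ℝ) := by
      exact_mod_cast (h2 w hw).2 (mem_II.2 ⟨hw, hneg⟩)
    rw [map_sub, map_smul, cc_rr, cc_rr, smul_eq_mul]
    have : ((f σ w ⬝ᵥ x : ℤ) : ℝ) - (L : ℝ) / hh f v σ * ((f σ w ⬝ᵥ v : ℤ) : ℝ) =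
        (hh f v σ * ((f σ w ⬝ᵥ x : ℤ) : ℝ) - L * ((f σ w ⬝ᵥ v : ℤ) : ℝ)) / hh f v σ := by
      field_simp
    rw [this]
    positivity
  · rw [map_sub, map_smul, us_v (v := v), us_rr' σ x, smul_eq_mul]
    have : ((∑ w ∈ σ, f σ w ⬝ᵥ x : ℤ) : ℝ) = L + m := by
      rw [hL]; push_cast; ring
    rw [this]
    field_simp
    ring

theorem Good.SS_of_level (hG : Good H v Γ f) {g : Fin n → ℝ} {m : ℕ}
    {σ : Finset (Fin n → ℝ)} (hσ : σ ∈ Γ) {x : Fin n → ℤ} (hx : ∑ a, x a = 0) {l : ℝ} (hl : 0 < l)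
    (h1 : Asg f v g σ (rr x - l • rr v)) (h2 : us f σ (rr x - l • rr v) = m - l) :
    SS f v g m σ x := by
  have hh1 : (0 : ℝ) < hh f v σ := by
    have := hG.one_le_hh hσ
    have : 0 < hh f v σ := by omega
    exact_mod_cast this
  rw [map_sub, map_smul, us_v (v := v), us_rr' σ x, smul_eq_mul] at h2
  set L : ℤ := ∑ w ∈ σ, f σ w ⬝ᵥ x - m with hL
  have hLl : (L : ℝ) = l * hh f v σ := by
    rw [hL]; push_cast; push_cast at h2; linarith
  refine ⟨hx, ?_, fun w hw => ⟨?_, fun hI => ?_⟩⟩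
  · have : (0 : ℝ) < L := by rw [hLl]; positivity
    exact_mod_cast this
  · have h3 := h1.1 w hw
    rw [map_sub, map_smul, cc_rr, cc_rr, smul_eq_mul] at h3
    have : (0 : ℝ) ≤ hh f v σ * ((f σ w ⬝ᵥ x : ℤ) : ℝ) - L * ((f σ w ⬝ᵥ v : ℤ) : ℝ) := by
      rw [hLl]
      have : (hh f v σ : ℝ) * ((f σ w ⬝ᵥ x : ℤ) : ℝ) - l * hh f v σ * ((f σ w ⬝ᵥ v : ℤ) : ℝ) =
        hh f v σ * (((f σ w ⬝ᵥ x : ℤ) : ℝ) - l * ((f σ w ⬝ᵥ v : ℤ) : ℝ)) := by ring
      rw [this]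
      positivity
    exact_mod_cast this
  · have h3 := h1.2 w hw (mem_II.1 hI).2
    rw [map_sub, map_smul, cc_rr, cc_rr, smul_eq_mul] at h3
    have : (0 : ℝ) < hh f v σ * ((f σ w ⬝ᵥ x : ℤ) : ℝ) - L * ((f σ w ⬝ᵥ v : ℤ) : ℝ) := by
      rw [hLl]
      have : (hh f v σ : ℝ) * ((f σ w ⬝ᵥ x : ℤ) : ℝ) - l * hh f v σ * ((f σ w ⬝ᵥ v : ℤ) : ℝ) =
        hh f v σ * (((f σ w ⬝ᵥ x : ℤ) : ℝ) - l * ((f σ w ⬝ᵥ v : ℤ) : ℝ)) := by ring
      rw [this]
      positivity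
    exact_mod_cast this

theorem Good.level_mem (hG : Good H v Γ f) {x : Fin n → ℤ} (hx : ∑ a, x a = 0) (l : ℝ) :
    rr x - l • rr v ∈ VV n :=
  (VV n).sub_mem (rr_mem_VV hx) ((VV n).smul_mem _ (rr_mem_VV hG.hv))

theorem Good.level_le (hG : Good H v Γ f) {g : Fin n → ℝ} {m : ℕ}
    {σ τ : Finset (Fin n → ℝ)} (hσ : σ ∈ Γ) (hτ : τ ∈ Γ) {x : Fin n → ℤ} (hx : ∑ a, x a = 0)
    {l l' : ℝ} (h2 : us f σ (rr x - l • rr v) = m - l)
    (h1' : Asg f v g τ (rr x - l' • rr v)) (h2' : us f τ (rr x - l' • rr v) = m - l')  :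
    l ≤ l' := by
  have h3 := hG.le_us hτ (hG.level_mem hx l') h1'.1 (hG.tight σ hσ)
  rw [← us_dot, h2'] at h3
  have h4 : rr x - l' • rr v = (rr x - l • rr v) + (l - l') • rr v := by
    rw [sub_smul]; abel
  rw [h4, map_add, h2, map_smul, us_v, smul_eq_mul] at h3
  have hh1 : (0 : ℝ) < hh f v σ := by
    have := hG.one_le_hh hσ
    have : 0 < hh f v σ := by omega
    exact_mod_cast this
  have h5 : (l - l') * hh f v σ ≤ 0 := by linarith
  by_contra hlt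
  push Not at hlt
  have : 0 < (l - l') * hh f v σ := mul_pos (by linarith) hh1
  linarith

theorem Good.SS_unique (hG : Good H v Γ f) {g : Fin n → ℝ} (hg : Pert H Γ f g) {m : ℕ}
    {σ τ : Finset (Fin n → ℝ)} (hσ : σ ∈ Γ) (hτ : τ ∈ Γ) {x : Fin n → ℤ}
    (h1 : SS f v g m σ x) (h2 : SS f v g m τ x) : σ = τ := by
  have hx := h1.1
  obtain ⟨l, -, h3, h4⟩ := hG.level_of_SS hσ h1
  obtain ⟨l', -, h5, h6⟩ := hG.level_of_SS hτ h2
  have h7 : l = l' := le_antisymm (hG.level_le hσ hτ hx h4 h5 h6) (hG.level_le hτ hσ hx h6 h3 h4)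
  subst h7
  exact hG.asg_unique hg hσ hτ (hG.level_mem hx l) h3 h5

theorem Good.Qp_of_SS (hG : Good H v Γ f) {g : Fin n → ℝ} {m : ℕ}
    {σ : Finset (Fin n → ℝ)} (hσ : σ ∈ Γ) {x : Fin n → ℤ} (h : SS f v g m σ x) : Qp H v m x := by
  have hx := h.1
  obtain ⟨l, hl, h3, h4⟩ := hG.level_of_SS hσ h
  refine ⟨hx, ⟨_, hG.tight σ hσ, ?_⟩, l, hl, ?_, ?_⟩
  · rw [← us_dot, us_rr']
    have := h.2.1
    have h5 : (m : ℤ) < ∑ w ∈ σ, f σ w ⬝ᵥ x := by omega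
    exact_mod_cast h5
  · have h5 : 0 ≤ us f σ (rr x - l • rr v) := by
      rw [us_apply]
      exact Finset.sum_nonneg h3.1
    rw [h4] at h5
    linarith
  · intro u hu
    have h5 := hG.le_us hσ (hG.level_mem hx l) h3.1 hu
    rw [h4, dotProduct_sub, dotProduct_smul, smul_eq_mul] at h5
    exact h5

theorem Good.SS_of_Qp (hG : Good H v Γ f) {g : Fin n → ℝ} (hg : Pert H Γ f g) {m : ℕ}
    {x : Fin n → ℤ} (h : Qp H v m x) : ∃ σ ∈ Γ, SS f v g m σ x := by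
  obtain ⟨hx, ⟨u1, hu1, hmu⟩, s, hs0, hsm, hs⟩ := h
  set T : Set ℝ := {s | s ∈ Set.Icc (0 : ℝ) m ∧ ∀ u ∈ KK H, u ⬝ᵥ rr x - s * (u ⬝ᵥ rr v) ≤ m - s}
    with hT
  have hTc : IsCompact T := by
    apply IsCompact.of_isClosed_subset (isCompact_Icc (a := (0 : ℝ)) (b := m))
    · have : T = Set.Icc (0 : ℝ) m ∩ ⋂ u ∈ KK H,
          {s : ℝ | u ⬝ᵥ rr x - s * (u ⬝ᵥ rr v) ≤ m - s} := by
        ext s
        simp only [hT, Set.mem_inter_iff, Set.mem_iInter]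
        exact Iff.rfl
      rw [this]
      refine isClosed_Icc.inter ?_
      refine isClosed_iInter fun u => isClosed_iInter fun _ => ?_
      exact isClosed_le (by fun_prop) (by fun_prop)
    · intro s hs
      exact hs.1
  have hTne : T.Nonempty := ⟨s, ⟨hs0.le, hsm⟩, hs⟩
  obtain ⟨l, hlT, hlmin⟩ := hTc.exists_isLeast hTne
  obtain ⟨⟨hl0', hlm⟩, hlu⟩ := hlT
  have hl0 : 0 < l := by
    rcases hl0'.eq_or_lt with h | h
    · exfalso
      have := hlu u1 hu1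
      rw [← h] at this
      linarith
    · exact h
  set b := rr x - l • rr v with hb
  have hbV : b ∈ VV n := hG.level_mem hx l
  have hub : ∀ u ∈ KK H, u ⬝ᵥ b ≤ m - l := by
    intro u hu
    rw [hb, dotProduct_sub, dotProduct_smul, smul_eq_mul]
    exact hlu u hu
  have hev : ∀ᶠ δ in 𝓝[>] (0 : ℝ), ∃ σ ∈ Γ, (∀ w ∈ σ, 0 ≤ cc (f σ w) (b + δ • rr v)) ∧
      m - l + δ ≤ us f σ (b + δ • rr v) := by
    have h1 : ∀ᶠ δ in 𝓝[>] (0 : ℝ), δ < l :=
      (eventually_lt_nhds hl0).filter_mono nhdsWithin_le_nhds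
    filter_upwards [h1, self_mem_nhdsWithin] with δ hδl hδ
    have hδ0 : (0 : ℝ) < δ := hδ
    have hnot : l - δ ∉ T := by
      intro h
      have := hlmin h
      linarith
    have hex : ∃ u ∈ KK H, m - l + δ < u ⬝ᵥ (b + δ • rr v) := by
      by_contra hno
      push Not at hno
      apply hnot
      refine ⟨⟨by linarith, by linarith⟩, fun u hu => ?_⟩
      have h2 := hno u hu
      rw [hb, dotProduct_add, dotProduct_sub, dotProduct_smul, dotProduct_smul, smul_eq_mul,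
        smul_eq_mul] at h2
      linarith
    obtain ⟨u2, hu2, hu2'⟩ := hex
    have hyV : b + δ • rr v ∈ VV n := (VV n).add_mem hbV ((VV n).smul_mem _ (rr_mem_VV hG.hv))
    have hcov := hG.cover (b + δ • rr v) hyV (by
      intro u hu hmax
      have h2 := hmax u2 hu2
      have h3 := hub u hu
      have h4 : m - l + δ < u ⬝ᵥ (b + δ • rr v) := lt_of_lt_of_le hu2' h2
      rw [dotProduct_add, dotProduct_smul, smul_eq_mul] at h4
      have h5 : δ * 1 < δ * (u ⬝ᵥ rr v) := by linarith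
      exact lt_of_mul_lt_mul_left h5 hδ0.le)
    obtain ⟨σ, hσ, hcone⟩ := hcov
    refine ⟨σ, hσ, hcone, ?_⟩
    have := hG.le_us hσ hyV hcone hu2
    linarith
  obtain ⟨τ, hτ, hfr⟩ := freq_pick hev
  have hτb : ∀ w ∈ τ, 0 ≤ cc (f τ w) b := by
    intro w hw
    apply (lin_nonneg (β := cc (f τ w) (rr v)) _).1
    refine hfr.mono fun δ hδ => ?_
    have := hδ.1 w hw
    rwa [map_add, map_smul, smul_eq_mul] at this
  have hτus : us f τ b = m - l := by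
    apply le_antisymm
    · have := hub _ (hG.tight τ hτ)
      rwa [← us_dot] at this
    · have := (lin_nonneg (α := us f τ b - (m - l)) (β := us f τ (rr v) - 1)
        (hfr.mono fun δ hδ => by
          have := hδ.2
          rw [map_add, map_smul, smul_eq_mul] at this
          linarith)).1
      linarith
  obtain ⟨σ, hσ, hasg, -, hus⟩ := hG.exists_asg hg hτ hbV hτb
  exact ⟨σ, hσ, hG.SS_of_level hσ hx hl0 hasg (hus.trans hτus)⟩

/-- The number of points in the part of `σ`. -/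
theorem Good.card_SS (hG : Good H v Γ f) {g : Fin n → ℝ} (hg : Pert H Γ f g) (m : ℕ)
    {σ : Finset (Fin n → ℝ)} (hσ : σ ∈ Γ) :
    Finite {x : Fin n → ℤ // SS f v g m σ x} ∧
    (Nat.card {x : Fin n → ℤ // SS f v g m σ x} : ℤ) =
      PowerSeries.coeff m (PowerSeries.X ^ ((II f v g σ).card + 1) *
        (∑ j ∈ range (latDist v σ), PowerSeries.X ^ j) *
        (PowerSeries.mk (fun _ => (1 : ℤ))) ^ n) := by
  classical
  have hn := hG.hn
  have hld := hG.latDist_eq hσ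
  have hh1 := hG.one_le_hh hσ
  have hld' : ((latDist v σ : ℕ) : ℤ) = hh f v σ := by rw [hld]; omega
  let a : {w // w ∈ σ} → ℤ := fun w => f σ w.1 ⬝ᵥ v
  let e : {w // w ∈ σ} → ℤ := fun w => if w.1 ∈ II f v g σ then 1 else 0
  have he : ∀ i, (e i = 0 ∧ 0 ≤ a i ∧ a i ≤ 1) ∨ (e i = 1 ∧ -1 ≤ a i ∧ a i ≤ 0) := by
    rintro ⟨w, hw⟩
    have h1 := hG.vp_neg_iff hg hσ hw
    by_cases hI : w ∈ II f v g σ
    · right
      have h2 := h1.1 (mem_II.1 hI).2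
      refine ⟨by simp only [e]; rw [if_pos hI], ?_⟩
      simp only [a]
      rcases h2 with h2 | h2
      · rw [h2]; norm_num
      · rw [h2.1]; norm_num
    · left
      have h2 : ¬ (cc (f σ w) (rr v + g) < 0) := fun h => hI (mem_II.2 ⟨hw, h⟩)
      rw [h1] at h2
      push Not at h2
      refine ⟨by simp only [e]; rw [if_neg hI], ?_⟩
      simp only [a]
      rcases hG.fv σ hσ w hw with h3 | h3 | h3
      · exact absurd h3 h2.1
      · rw [h3]; norm_num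
      · rw [h3]; norm_num
  have hsum : ∑ i, a i = (latDist v σ : ℕ) + 1 := by
    rw [hld', hh]
    simp only [a]
    rw [Finset.sum_coe_sort σ (fun w => f σ w ⬝ᵥ v)]
    ring
  have hs0 : ∑ i, e i = ((II f v g σ).card : ℕ) := by
    simp only [e]
    rw [Finset.sum_coe_sort σ (fun w => if w ∈ II f v g σ then (1 : ℤ) else 0)]
    rw [← Finset.sum_filter, Finset.sum_const, nsmul_eq_mul, mul_one]
    congr 2
    ext w
    simp only [Finset.mem_filter]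
    exact ⟨fun h => h.2, fun h => ⟨(mem_II.1 h).1, h⟩⟩
  obtain ⟨E⟩ := count_abs a e he (latDist v σ) (by omega) hsum (II f v g σ).card hs0 m
  -- the coordinates
  have hzex : ∀ w ∈ σ, ∃ z : Fin n → ℤ, w = rr z ∧ ∑ x, z x = 0 := by
    intro w hw
    obtain ⟨c, d, -, hcd⟩ := hG.root σ hσ w hw
    refine ⟨ee ℤ c d, by rw [hcd, ee_cast]; rfl, ?_⟩
    simp [ee, Finset.sum_sub_distrib]
  choose! z hz hz0 using hzex
  have hfz : ∀ w ∈ σ, ∀ w' ∈ σ, f σ w ⬝ᵥ z w' = if w' = w then 1 else 0 := by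
    intro w hw w' hw'
    have h1 : ((f σ w ⬝ᵥ z w' : ℤ) : ℝ) = if w' = w then 1 else 0 := by
      rw [← cc_rr, ← hz w' hw']
      split_ifs with h
      · rw [h]; exact hG.dual1 σ hσ w hw
      · exact hG.dual0 σ hσ w hw w' hw' h
    split_ifs at h1 ⊢ with h
    · exact_mod_cast h1
    · exact_mod_cast h1
  let ψ : (Fin n → ℤ) → ({w // w ∈ σ} → ℤ) := fun x w => f σ w.1 ⬝ᵥ x
  have hψ : ∀ x : Fin n → ℤ, SS f v g m σ x ↔ ∑ a, x a = 0 ∧ Cond a e (latDist v σ : ℕ) m (ψ x) := by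
    intro x
    have hsx : ∑ i, ψ x i = ∑ w ∈ σ, f σ w ⬝ᵥ x := by
      simp only [ψ]
      rw [Finset.sum_coe_sort σ (fun w => f σ w ⬝ᵥ x)]
    rw [SS, Cond, hsx, hld']
    refine and_congr_right fun _ => and_congr_right fun _ => ?_
    constructor
    · rintro h ⟨w, hw⟩
      refine ⟨(h w hw).1, fun he => (h w hw).2 ?_⟩
      by_contra hI
      simp only [e] at he
      rw [if_neg hI] at he
      norm_num at he
    · intro h w hw
      refine ⟨(h ⟨w, hw⟩).1, fun hI => (h ⟨w, hw⟩).2 ?_⟩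
      simp only [e]
      rw [if_pos hI]
  have hbij : Function.Bijective (fun x : {x : Fin n → ℤ // SS f v g m σ x} =>
      (⟨ψ x.1, ((hψ x.1).1 x.2).2⟩ : {X // Cond a e (latDist v σ : ℕ) m X})) := by
    constructor
    · rintro ⟨x, hx⟩ ⟨y, hy⟩ heq
      have h1 : ψ x = ψ y := congrArg Subtype.val heq
      apply Subtype.ext
      change x = y
      have h2 := hG.rep σ hσ (rr x) (rr_mem_VV hx.1)
      have h3 := hG.rep σ hσ (rr y) (rr_mem_VV hy.1)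
      have h4 : rr x = rr y := by
        rw [h2, h3]
        apply Finset.sum_congr rfl
        intro w hw
        rw [cc_rr, cc_rr]
        have := congrFun h1 ⟨w, hw⟩
        simp only [ψ] at this
        rw [this]
      funext c
      have := congrFun h4 c
      simp only [rr] at this
      exact_mod_cast this
    · rintro ⟨X, hX⟩
      have hx0 : ∑ c, (∑ w : {w // w ∈ σ}, X w • z w.1) c = 0 := by
        simp only [Finset.sum_apply, Pi.smul_apply]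
        rw [Finset.sum_comm]
        apply Finset.sum_eq_zero
        rintro ⟨w, hw⟩ _
        rw [← Finset.smul_sum, hz0 w hw, smul_zero]
      have hψX : ψ (∑ w : {w // w ∈ σ}, X w • z w.1) = X := by
        funext w
        simp only [ψ]
        rw [dotProduct_sum, Finset.sum_eq_single w]
        · rw [dotProduct_smul, hfz w.1 w.2 w.1 w.2, if_pos rfl]
          simp
        · intro w' _ hne
          rw [dotProduct_smul, hfz w.1 w.2 w'.1 w'.2, if_neg (fun h => hne (Subtype.ext h)), smul_zero]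
        · intro h; exact absurd (Finset.mem_univ _) h
      refine ⟨⟨∑ w : {w // w ∈ σ}, X w • z w.1, (hψ _).2 ⟨hx0, by rw [hψX]; exact hX⟩⟩, ?_⟩
      apply Subtype.ext
      exact hψX
  have E2 := (Equiv.ofBijective _ hbij).trans E
  refine ⟨Finite.of_equiv _ E2.symm, ?_⟩
  rw [Nat.card_congr E2]
  have h5 : Nat.card {q // q ∈ BB {w // w ∈ σ} (latDist v σ) (II f v g σ).card m} =
      (BB {w // w ∈ σ} (latDist v σ) (II f v g σ).card m).card :=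
    Nat.card_eq_finsetCard _
  rw [h5, card_BB, Fintype.card_coe, hG.card σ hσ]
  have : n - 1 + 1 = n := by omega
  rw [this]

/-- The number of points added on one side. -/
theorem Good.card_Qp (hG : Good H v Γ f) {g : Fin n → ℝ} (hg : Pert H Γ f g) (m : ℕ) :
    Finite {x : Fin n → ℤ // Qp H v m x} ∧
    (Nat.card {x : Fin n → ℤ // Qp H v m x} : ℤ) =
      ∑ σ ∈ Γ, PowerSeries.coeff m (PowerSeries.X ^ ((II f v g σ).card + 1) *
        (∑ j ∈ range (latDist v σ), PowerSeries.X ^ j) *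
        (PowerSeries.mk (fun _ => (1 : ℤ))) ^ n) := by
  have hbij : Function.Bijective (fun p : (Σ σ : {σ // σ ∈ Γ}, {x : Fin n → ℤ // SS f v g m σ.1 x}) =>
      (⟨p.2.1, hG.Qp_of_SS p.1.2 p.2.2⟩ : {x : Fin n → ℤ // Qp H v m x})) := by
    constructor
    · rintro ⟨⟨σ, hσ⟩, ⟨x, hx⟩⟩ ⟨⟨τ, hτ⟩, ⟨y, hy⟩⟩ heq
      have h1 : x = y := congrArg Subtype.val heq
      subst h1
      have h2 := hG.SS_unique hg hσ hτ hx hy
      subst h2
      rfl
    · rintro ⟨x, hx⟩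
      obtain ⟨σ, hσ, h⟩ := hG.SS_of_Qp hg hx
      exact ⟨⟨⟨σ, hσ⟩, ⟨x, h⟩⟩, rfl⟩
  have E := Equiv.ofBijective _ hbij
  have hfin : ∀ σ : {σ // σ ∈ Γ}, Finite {x : Fin n → ℤ // SS f v g m σ.1 x} :=
    fun σ => (hG.card_SS hg m σ.2).1
  refine ⟨Finite.of_equiv _ E, ?_⟩
  rw [← Nat.card_congr E, Nat.card_sigma]
  push_cast
  rw [← Finset.sum_coe_sort Γ]
  apply Finset.sum_congr rfl
  intro σ _
  exact (hG.card_SS hg m σ.2).2

end

end Q35.HE
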