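import Pool.Agent.Q35.HE.LP

namespace Q35.HE

open Finset Filter Topology

variable {n : ℕ}

/-- An integer vector as a real linear functional. -/
noncomputable def cc (f : Fin n → ℤ) : (Fin n → ℝ) →ₗ[ℝ] ℝ where
  toFun x := (fun a => (f a : ℝ)) ⬝ᵥ x
  map_add' x y := by rw [dotProduct_add]
  map_smul' c x := by rw [dotProduct_smul]; rfl

/-- An integer vector as a real vector. -/
def rr (x : Fin n → ℤ) : Fin n → ℝ := fun a => (x a : ℝ)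

theorem cc_apply (f : Fin n → ℤ) (x : Fin n → ℝ) : cc f x = rr f ⬝ᵥ x := rfl

theorem cc_rr (f x : Fin n → ℤ) : cc f (rr x) = ((f ⬝ᵥ x : ℤ) : ℝ) := by
  rw [cc_apply]
  simp [rr, dotProduct]

theorem rr_mem_VV {x : Fin n → ℤ} (hx : ∑ a, x a = 0) : rr x ∈ VV n := by
  rw [mem_VV]
  simp only [rr]
  exact_mod_cast hx

/-- The functional which is `1` on the vertices of `σ`. -/
noncomputable def us (f : Finset (Fin n → ℝ) → (Fin n → ℝ) → Fin n → ℤ)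
    (σ : Finset (Fin n → ℝ)) : (Fin n → ℝ) →ₗ[ℝ] ℝ := ∑ w ∈ σ, cc (f σ w)

theorem us_apply (f : Finset (Fin n → ℝ) → (Fin n → ℝ) → Fin n → ℤ)
    (σ : Finset (Fin n → ℝ)) (x : Fin n → ℝ) : us f σ x = ∑ w ∈ σ, cc (f σ w) x := by
  simp [us, LinearMap.sum_apply]

/-- The combinatorial data extracted from a triangulation of the visible facets. -/
structure Good (H : SimpleGraph (Fin n)) (v : Fin n → ℤ) (Γ : Finset (Finset (Fin n → ℝ)))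
    (f : Finset (Fin n → ℝ) → (Fin n → ℝ) → Fin n → ℤ) : Prop where
  hn : 2 ≤ n
  hv : ∑ a, v a = 0
  card : ∀ σ ∈ Γ, σ.card = n - 1
  root : ∀ σ ∈ Γ, ∀ w ∈ σ, w ∈ Rt H
  dual1 : ∀ σ ∈ Γ, ∀ w ∈ σ, cc (f σ w) w = 1
  dual0 : ∀ σ ∈ Γ, ∀ w ∈ σ, ∀ w' ∈ σ, w' ≠ w → cc (f σ w) w' = 0
  fv : ∀ σ ∈ Γ, ∀ w ∈ σ, f σ w ⬝ᵥ v = -1 ∨ f σ w ⬝ᵥ v = 0 ∨ f σ w ⬝ᵥ v = 1
  rep : ∀ σ ∈ Γ, ∀ x ∈ VV n, x = ∑ w ∈ σ, cc (f σ w) x • w
  tight : ∀ σ ∈ Γ, (∑ w ∈ σ, rr (f σ w)) ∈ KK H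
  vis : ∀ σ ∈ Γ, 2 ≤ ∑ w ∈ σ, f σ w ⬝ᵥ v
  inter : ∀ σ ∈ Γ, ∀ τ ∈ Γ, ∀ y ∈ VV n, (∀ w ∈ σ, 0 ≤ cc (f σ w) y) →
    (∀ w ∈ τ, 0 ≤ cc (f τ w) y) → ∀ w ∈ σ, w ∉ τ → cc (f σ w) y = 0
  cover : ∀ y ∈ VV n, (∀ u ∈ KK H, (∀ u' ∈ KK H, u' ⬝ᵥ y ≤ u ⬝ᵥ y) → 1 < u ⬝ᵥ rr v) →
    ∃ σ ∈ Γ, ∀ w ∈ σ, 0 ≤ cc (f σ w) y

section
variable {H : SimpleGraph (Fin n)} {v : Fin n → ℤ} {Γ : Finset (Finset (Fin n → ℝ))}
    {f : Finset (Fin n → ℝ) → (Fin n → ℝ) → Fin n → ℤ}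

theorem us_dot (σ : Finset (Fin n → ℝ)) (x : Fin n → ℝ) :
    us f σ x = (∑ w ∈ σ, rr (f σ w)) ⬝ᵥ x := by
  rw [us_apply, sum_dotProduct]
  rfl

/-- On the cone over `σ` the functional of `σ` is the largest one. -/
theorem Good.le_us (hG : Good H v Γ f) {σ : Finset (Fin n → ℝ)} (hσ : σ ∈ Γ) {y : Fin n → ℝ}
    (hy : y ∈ VV n) (h : ∀ w ∈ σ, 0 ≤ cc (f σ w) y) {u : Fin n → ℝ} (hu : u ∈ KK H) :
    u ⬝ᵥ y ≤ us f σ y := by
  rw [us_apply]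
  conv_lhs => rw [hG.rep σ hσ y hy]
  rw [dotProduct_sum]
  apply Finset.sum_le_sum
  intro w hw
  rw [dotProduct_smul, smul_eq_mul]
  have := KK_root hu (hG.root σ hσ w hw)
  nlinarith [h w hw]

theorem freq_pick {α : Type*} {Γ : Finset α} {p : α → ℝ → Prop}
    (h : ∀ᶠ δ in 𝓝[>] (0 : ℝ), ∃ σ ∈ Γ, p σ δ) : ∃ σ ∈ Γ, ∃ᶠ δ in 𝓝[>] (0 : ℝ), p σ δ := by
  by_contra hno
  push Not at hno
  have h1 : ∀ᶠ δ in 𝓝[>] (0 : ℝ), ∀ σ ∈ Γ, ¬ p σ δ := by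
    rw [Filter.eventually_all_finset]
    intro σ hσ
    exact hno σ hσ
  obtain ⟨δ, h2, h3⟩ := (h.and h1).exists
  obtain ⟨σ, hσ, hp⟩ := h2
  exact h3 σ hσ hp

theorem lin_nonneg {α β : ℝ} (h : ∃ᶠ δ in 𝓝[>] (0 : ℝ), 0 ≤ α + δ * β) :
    0 ≤ α ∧ (α = 0 → 0 ≤ β) := by
  constructor
  · by_contra hα
    push Not at hα
    have h1 : ∀ᶠ δ in 𝓝 (0 : ℝ), α + δ * β < 0 := by
      have h2 : ContinuousAt (fun δ : ℝ => α + δ * β) 0 := by fun_prop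
      exact h2.eventually_lt continuousAt_const (by simpa using hα)
    have h3 := h1.filter_mono (nhdsWithin_le_nhds (s := Set.Ioi (0 : ℝ)))
    obtain ⟨δ, h4, h5⟩ := (h.and_eventually h3).exists
    linarith
  · intro hα
    obtain ⟨δ, h4, h5⟩ := (h.and_eventually self_mem_nhdsWithin).exists
    rw [hα, zero_add] at h4
    have h6 : (0 : ℝ) < δ := h5
    by_contra hb
    push Not at hb
    nlinarith

theorem lin_pos {α β : ℝ} (h0 : 0 ≤ α) (hb : β ≠ 0) (h : β < 0 → 0 < α) :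
    ∀ᶠ δ in 𝓝[>] (0 : ℝ), 0 < α + δ * β := by
  rcases lt_or_gt_of_ne hb with h1 | h1
  · have h2 : ContinuousAt (fun δ : ℝ => α + δ * β) 0 := by fun_prop
    have h3 : ∀ᶠ δ in 𝓝 (0 : ℝ), 0 < α + δ * β :=
      continuousAt_const.eventually_lt h2 (by simpa using h h1)
    exact h3.filter_mono nhdsWithin_le_nhds
  · filter_upwards [self_mem_nhdsWithin] with δ hδ
    have : (0 : ℝ) < δ := hδ
    positivity

/-- The perturbation direction. -/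
structure Pert (H : SimpleGraph (Fin n)) (Γ : Finset (Finset (Fin n → ℝ)))
    (f : Finset (Fin n → ℝ) → (Fin n → ℝ) → Fin n → ℤ) (g : Fin n → ℝ) : Prop where
  mem : g ∈ VV n
  ne : ∀ σ ∈ Γ, ∀ w ∈ σ, cc (f σ w) g ≠ 0
  lt : ∀ σ ∈ Γ, ∀ w ∈ σ, |cc (f σ w) g| < 1
  small : ∀ u ∈ KK H, |u ⬝ᵥ g| < 1 / 2

/-- `y` is assigned to `σ`. -/
def Asg (f : Finset (Fin n → ℝ) → (Fin n → ℝ) → Fin n → ℤ) (v : Fin n → ℤ) (g : Fin n → ℝ)
    (σ : Finset (Fin n → ℝ)) (y : Fin n → ℝ) : Prop :=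
  (∀ w ∈ σ, 0 ≤ cc (f σ w) y) ∧ (∀ w ∈ σ, cc (f σ w) (rr v + g) < 0 → 0 < cc (f σ w) y)

/-- The distance of `v` from the facet. -/
def hh (f : Finset (Fin n → ℝ) → (Fin n → ℝ) → Fin n → ℤ) (v : Fin n → ℤ)
    (σ : Finset (Fin n → ℝ)) : ℤ := ∑ w ∈ σ, f σ w ⬝ᵥ v - 1

theorem Good.one_le_hh (hG : Good H v Γ f) {σ : Finset (Fin n → ℝ)} (hσ : σ ∈ Γ) :
    1 ≤ hh f v σ := by
  have := hG.vis σ hσ
  rw [hh]
  omega

theorem us_v (σ : Finset (Fin n → ℝ)) : us f σ (rr v) = (hh f v σ : ℝ) + 1 := by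
  rw [us_apply, hh]
  push_cast
  rw [sub_add_cancel]
  apply Finset.sum_congr rfl
  intro w _
  rw [cc_rr]

theorem Good.vp_ne (hG : Good H v Γ f) {g : Fin n → ℝ} (hg : Pert H Γ f g)
    {σ : Finset (Fin n → ℝ)} (hσ : σ ∈ Γ) {w : Fin n → ℝ} (hw : w ∈ σ) :
    cc (f σ w) (rr v + g) ≠ 0 := by
  rw [map_add, cc_rr]
  have h1 := hg.lt σ hσ w hw
  rw [abs_lt] at h1
  have h2 := hg.ne σ hσ w hw
  rcases hG.fv σ hσ w hw with h | h | h
  · rw [h]; push_cast; intro h3; linarith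
  · rw [h]; push_cast; intro h3; apply h2; linarith
  · rw [h]; push_cast; intro h3; linarith

theorem Good.vp_neg_iff (hG : Good H v Γ f) {g : Fin n → ℝ} (hg : Pert H Γ f g)
    {σ : Finset (Fin n → ℝ)} (hσ : σ ∈ Γ) {w : Fin n → ℝ} (hw : w ∈ σ) :
    cc (f σ w) (rr v + g) < 0 ↔ f σ w ⬝ᵥ v = -1 ∨ (f σ w ⬝ᵥ v = 0 ∧ cc (f σ w) g < 0) := by
  rw [map_add, cc_rr]
  have h1 := hg.lt σ hσ w hw
  rw [abs_lt] at h1
  rcases hG.fv σ hσ w hw with h | h | h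
  · rw [h]; push_cast
    exact ⟨fun _ => Or.inl trivial, fun _ => by linarith⟩
  · rw [h]; push_cast
    constructor
    · intro h3; right; exact ⟨trivial, by linarith⟩
    · rintro (h3 | h3)
      · norm_num at h3
      · linarith [h3.2]
  · rw [h]; push_cast
    constructor
    · intro h3; exfalso; linarith
    · rintro (h3 | h3)
      · norm_num at h3
      · norm_num at h3

theorem Good.exists_asg (hG : Good H v Γ f) {g : Fin n → ℝ} (hg : Pert H Γ f g)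
    {τ : Finset (Fin n → ℝ)} (hτ : τ ∈ Γ) {y : Fin n → ℝ} (hy : y ∈ VV n)
    (hyτ : ∀ w ∈ τ, 0 ≤ cc (f τ w) y) :
    ∃ σ ∈ Γ, Asg f v g σ y ∧ hh f v τ ≤ hh f v σ ∧ us f σ y = us f τ y := by
  have hvV : rr v ∈ VV n := rr_mem_VV hG.hv
  have hgτ := hg.small _ (hG.tight τ hτ)
  rw [← us_dot, abs_lt] at hgτ
  have hτ1 : (1 : ℝ) ≤ hh f v τ := by exact_mod_cast hG.one_le_hh hτ
  have hev : ∀ᶠ δ in 𝓝[>] (0 : ℝ), ∃ σ ∈ Γ, ∀ w ∈ σ, 0 ≤ cc (f σ w) (y + δ • (rr v + g)) := by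
    filter_upwards [self_mem_nhdsWithin] with δ hδ
    have hδ0 : (0 : ℝ) < δ := hδ
    apply hG.cover
    · exact (VV n).add_mem hy ((VV n).smul_mem _ ((VV n).add_mem hvV hg.mem))
    · intro u hu hmax
      have h1 := hmax _ (hG.tight τ hτ)
      rw [← us_dot, map_add, map_smul, dotProduct_add, dotProduct_smul, smul_eq_mul,
        smul_eq_mul] at h1
      have h2 := hG.le_us hτ hy hyτ hu
      have h3 : us f τ (rr v + g) ≤ u ⬝ᵥ (rr v + g) := by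
        have : δ * us f τ (rr v + g) ≤ δ * u ⬝ᵥ (rr v + g) := by linarith
        exact le_of_mul_le_mul_left this hδ0
      rw [map_add, us_v, dotProduct_add] at h3
      have h4 := hg.small u hu
      rw [abs_lt] at h4
      linarith
  obtain ⟨σ, hσ, hfr⟩ := freq_pick hev
  have hcoord : ∀ w ∈ σ, 0 ≤ cc (f σ w) y ∧ (cc (f σ w) y = 0 → 0 ≤ cc (f σ w) (rr v + g)) := by
    intro w hw
    apply lin_nonneg
    refine hfr.mono fun δ hδ => ?_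
    have := hδ w hw
    rwa [map_add, map_smul, smul_eq_mul] at this
  have hus : us f σ y = us f τ y := by
    apply le_antisymm
    · have := hG.le_us hτ hy hyτ (hG.tight σ hσ)
      rwa [← us_dot] at this
    · have := hG.le_us hσ hy (fun w hw => (hcoord w hw).1) (hG.tight τ hτ)
      rwa [← us_dot] at this
  refine ⟨σ, hσ, ⟨fun w hw => (hcoord w hw).1, fun w hw hneg => ?_⟩, ?_, hus⟩
  · rcases (hcoord w hw).1.eq_or_lt with h | h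
    · exact absurd ((hcoord w hw).2 h.symm) (not_le.2 hneg)
    · exact h
  · obtain ⟨δ, h1, h2⟩ := (hfr.and_eventually self_mem_nhdsWithin).exists
    have hδ0 : (0 : ℝ) < δ := h2
    have h3 := hG.le_us hσ (y := y + δ • (rr v + g))
      ((VV n).add_mem hy ((VV n).smul_mem _ ((VV n).add_mem hvV hg.mem))) h1 (hG.tight τ hτ)
    rw [← us_dot, map_add, map_smul, map_add (us f σ), map_smul, smul_eq_mul, smul_eq_mul, hus] at h3
    have h4 : us f τ (rr v + g) ≤ us f σ (rr v + g) := by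
      have : δ * us f τ (rr v + g) ≤ δ * us f σ (rr v + g) := by linarith
      exact le_of_mul_le_mul_left this hδ0
    rw [map_add, map_add, us_v, us_v] at h4
    have h5 := hg.small _ (hG.tight σ hσ)
    rw [← us_dot, abs_lt] at h5
    have h6 : (hh f v τ : ℝ) < hh f v σ + 1 := by linarith
    have h7 : hh f v τ < hh f v σ + 1 := by exact_mod_cast h6
    omega

theorem Good.asg_unique (hG : Good H v Γ f) {g : Fin n → ℝ} (hg : Pert H Γ f g)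
    {σ τ : Finset (Fin n → ℝ)} (hσ : σ ∈ Γ) (hτ : τ ∈ Γ) {y : Fin n → ℝ} (hy : y ∈ VV n)
    (h1 : Asg f v g σ y) (h2 : Asg f v g τ y) : σ = τ := by
  have hvV : rr v ∈ VV n := rr_mem_VV hG.hv
  have hpos : ∀ ρ ∈ Γ, Asg f v g ρ y →
      ∀ᶠ δ in 𝓝[>] (0 : ℝ), ∀ w ∈ ρ, 0 < cc (f ρ w) (y + δ • (rr v + g)) := by
    intro ρ hρ h
    rw [Filter.eventually_all_finset]
    intro w hw
    have := lin_pos (h.1 w hw) (hG.vp_ne hg hρ hw) (h.2 w hw)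
    filter_upwards [this] with δ hδ
    rwa [map_add, map_smul, smul_eq_mul]
  obtain ⟨δ, h3, h4⟩ := ((hpos σ hσ h1).and (hpos τ hτ h2)).exists
  have h5 := hG.inter σ hσ τ hτ (y + δ • (rr v + g))
    ((VV n).add_mem hy ((VV n).smul_mem _ ((VV n).add_mem hvV hg.mem)))
    (fun w hw => (h3 w hw).le) (fun w hw => (h4 w hw).le)
  apply Finset.eq_of_subset_of_card_le
  · intro w hw
    by_contra hwτ
    have := h5 w hw hwτ
    have := h3 w hw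
    linarith
  · rw [hG.card σ hσ, hG.card τ hτ]

end

end Q35.HE
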