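import Pool.Agent.Q35.HE.Tri

namespace Q35.HE

open Finset Filter Topology Polynomial

variable {n : ℕ}

section
variable {H : SimpleGraph (Fin n)} {v : Fin n → ℤ} {Γ : Finset (Finset (Fin n → ℝ))}
    {f : Finset (Fin n → ℝ) → (Fin n → ℝ) → Fin n → ℤ}

theorem Good.exists_pert (hG : Good H v Γ f) (hc : H.Connected) : ∃ g, Pert H Γ f g := by
  obtain ⟨g0, hg0V, hg0⟩ := Module.Dual.exists_forall_mem_ne_zero_of_forall_exists (VV n)
    (fun p : (σ : {σ // σ ∈ Γ}) × {w // w ∈ σ.1} => cc (f p.1.1 p.2.1)) (by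
      rintro ⟨⟨σ, hσ⟩, ⟨w, hw⟩⟩
      refine ⟨w, Rt_subset_VV H (hG.root σ hσ w hw), ?_⟩
      simp only
      rw [hG.dual1 σ hσ w hw]
      norm_num)
  have hg0' : ∀ σ ∈ Γ, ∀ w ∈ σ, cc (f σ w) g0 ≠ 0 := fun σ hσ w hw => hg0 ⟨⟨σ, hσ⟩, ⟨w, hw⟩⟩
  obtain ⟨u0, hu0, hmax, -⟩ := exists_facet hc hg0V
  set M := u0 ⬝ᵥ g0 with hM
  have hbd : ∀ u ∈ KK H, |u ⬝ᵥ g0| ≤ M := by
    intro u hu
    rw [abs_le]
    refine ⟨?_, hmax u hu⟩
    have := hmax _ (neg_mem_KK hu)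
    rw [neg_dotProduct] at this
    linarith
  have hM0 : 0 ≤ M := (abs_nonneg _).trans (hbd _ hu0)
  have h1 : ∀ᶠ t in 𝓝[>] (0 : ℝ), t * M < 1 / 2 := by
    have h2 : ContinuousAt (fun t : ℝ => t * M) 0 := by fun_prop
    exact (h2.eventually_lt continuousAt_const (by norm_num)).filter_mono nhdsWithin_le_nhds
  have h2 : ∀ᶠ t in 𝓝[>] (0 : ℝ), ∀ σ ∈ Γ, ∀ w ∈ σ, |t * cc (f σ w) g0| < 1 := by
    rw [Filter.eventually_all_finset]
    intro σ _
    rw [Filter.eventually_all_finset]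
    intro w _
    have h2 : ContinuousAt (fun t : ℝ => |t * cc (f σ w) g0|) 0 := by fun_prop
    exact (h2.eventually_lt continuousAt_const (by norm_num)).filter_mono nhdsWithin_le_nhds
  obtain ⟨t, ⟨h3, h4⟩, h5⟩ := ((h1.and h2).and self_mem_nhdsWithin).exists
  have ht : (0 : ℝ) < t := h5
  refine ⟨t • g0, (VV n).smul_mem t hg0V, ?_, ?_, ?_⟩
  · intro σ hσ w hw
    rw [map_smul, smul_eq_mul]
    exact mul_ne_zero ht.ne' (hg0' σ hσ w hw)
  · intro σ hσ w hw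
    rw [map_smul, smul_eq_mul]
    exact h4 σ hσ w hw
  · intro u hu
    rw [dotProduct_smul, smul_eq_mul, abs_mul, abs_of_pos ht]
    calc t * |u ⬝ᵥ g0| ≤ t * M := by
          apply mul_le_mul_of_nonneg_left (hbd u hu) ht.le
      _ < 1 / 2 := h3

theorem Pert.neg {g : Fin n → ℝ} (hg : Pert H Γ f g) : Pert H Γ f (-g) := by
  refine ⟨(VV n).neg_mem hg.mem, ?_, ?_, ?_⟩
  · intro σ hσ w hw
    rw [map_neg]
    exact neg_ne_zero.2 (hg.ne σ hσ w hw)
  · intro σ hσ w hw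
    rw [map_neg, abs_neg]
    exact hg.lt σ hσ w hw
  · intro u hu
    rw [dotProduct_neg, abs_neg]
    exact hg.small u hu

open Classical in
/-- The vertices of `σ` with negative coordinate of `v + g`. -/
noncomputable def II (f : Finset (Fin n → ℝ) → (Fin n → ℝ) → Fin n → ℤ) (v : Fin n → ℤ)
    (g : Fin n → ℝ) (σ : Finset (Fin n → ℝ)) : Finset (Fin n → ℝ) :=
  σ.filter (fun w => cc (f σ w) (rr v + g) < 0)

theorem mem_II {g : Fin n → ℝ} {σ : Finset (Fin n → ℝ)} {w : Fin n → ℝ} :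
    w ∈ II f v g σ ↔ w ∈ σ ∧ cc (f σ w) (rr v + g) < 0 := by
  simp [II]

theorem Good.card_II (hG : Good H v Γ f) {g : Fin n → ℝ} (hg : Pert H Γ f g)
    {σ : Finset (Fin n → ℝ)} (hσ : σ ∈ Γ) :
    ((II f v g σ).card : ℤ) + (II f v (-g) σ).card + hh f v σ + 1 = ((n - 1 : ℕ) : ℤ) := by
  classical
  have h1 : (((II f v g σ).card : ℕ) : ℤ) = ∑ w ∈ σ, if cc (f σ w) (rr v + g) < 0 then 1 else 0 := by
    rw [II, Finset.card_filter]
    push_cast
    rfl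
  have h2 : (((II f v (-g) σ).card : ℕ) : ℤ) =
      ∑ w ∈ σ, if cc (f σ w) (rr v + -g) < 0 then 1 else 0 := by
    rw [II, Finset.card_filter]
    push_cast
    rfl
  have h3 : (((n - 1 : ℕ)) : ℤ) = ∑ w ∈ σ, 1 := by
    rw [← hG.card σ hσ]
    simp
  rw [h1, h2, h3, hh]
  rw [add_assoc _ (∑ w ∈ σ, f σ w ⬝ᵥ v - 1), sub_add_cancel, ← Finset.sum_add_distrib,
    ← Finset.sum_add_distrib]
  apply Finset.sum_congr rfl
  intro w hw
  have h4 := hG.vp_neg_iff hg hσ hw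
  have h5 := hG.vp_neg_iff hg.neg hσ hw
  rw [map_neg] at h5
  have h6 := hg.ne σ hσ w hw
  rcases hG.fv σ hσ w hw with h | h | h
  · rw [if_pos (h4.2 (Or.inl h)), if_pos (h5.2 (Or.inl h)), h]; norm_num
  · rcases lt_or_gt_of_ne h6 with h7 | h7
    · rw [if_pos (h4.2 (Or.inr ⟨h, h7⟩)), if_neg, h]; · norm_num
      rw [h5, h]
      rintro (h8 | h8)
      · norm_num at h8
      · linarith [h8.2]
    · rw [if_neg, if_pos (h5.2 (Or.inr ⟨h, by linarith⟩)), h]; · norm_num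
      rw [h4, h]
      rintro (h8 | h8)
      · norm_num at h8
      · linarith [h8.2]
  · rw [if_neg, if_neg, h]; · norm_num
    · rw [h5, h]; norm_num
    · rw [h4, h]; norm_num

theorem mem_faces {S : Finset (Finset (Fin n → ℝ))} {τ : Finset (Fin n → ℝ)} :
    τ ∈ faces S ↔ ∃ σ ∈ S, τ ⊆ σ := by
  simp [faces]

theorem Good.coord_sum (hG : Good H v Γ f) {σ : Finset (Fin n → ℝ)} (hσ : σ ∈ Γ)
    {τ : Finset (Fin n → ℝ)} (hτ : τ ⊆ σ) {w : Fin n → ℝ} (hw : w ∈ σ) :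
    (w ∈ τ → cc (f σ w) (∑ x ∈ τ, x) = 1) ∧ (w ∉ τ → cc (f σ w) (∑ x ∈ τ, x) = 0) := by
  constructor
  · intro h
    rw [map_sum, Finset.sum_eq_single w, hG.dual1 σ hσ w hw]
    · intro x hx hne
      exact hG.dual0 σ hσ w hw x (hτ hx) hne
    · intro h'; exact absurd h h'
  · intro h
    rw [map_sum]
    apply Finset.sum_eq_zero
    intro x hx
    apply hG.dual0 σ hσ w hw x (hτ hx)
    rintro rfl
    exact h hx

theorem Good.sum_mem_VV (hG : Good H v Γ f) {σ : Finset (Fin n → ℝ)} (hσ : σ ∈ Γ)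
    {τ : Finset (Fin n → ℝ)} (hτ : τ ⊆ σ) : (∑ x ∈ τ, x) ∈ VV n :=
  (VV n).sum_mem fun x hx => Rt_subset_VV H (hG.root σ hσ x (hτ hx))

theorem Good.asg_of_interval (hG : Good H v Γ f) {g : Fin n → ℝ}
    {σ : Finset (Fin n → ℝ)} (hσ : σ ∈ Γ)
    {τ : Finset (Fin n → ℝ)} (hτ : τ ⊆ σ) (hI : II f v g σ ⊆ τ) : Asg f v g σ (∑ x ∈ τ, x) := by
  constructor
  · intro w hw
    have := hG.coord_sum hσ hτ hw
    by_cases h : w ∈ τ
    · rw [this.1 h]; norm_num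
    · rw [this.2 h]
  · intro w hw hneg
    have := hG.coord_sum hσ hτ hw
    have h : w ∈ τ := hI (mem_II.2 ⟨hw, hneg⟩)
    rw [this.1 h]
    norm_num

theorem Good.exists_interval (hG : Good H v Γ f) {g : Fin n → ℝ} (hg : Pert H Γ f g)
    {σ0 : Finset (Fin n → ℝ)} (hσ0 : σ0 ∈ Γ) {τ : Finset (Fin n → ℝ)} (hτ : τ ⊆ σ0) :
    ∃ σ ∈ Γ, hh f v σ0 ≤ hh f v σ ∧ τ ⊆ σ ∧ II f v g σ ⊆ τ := by
  have hV := hG.sum_mem_VV hσ0 hτ
  have h0 : ∀ w ∈ σ0, 0 ≤ cc (f σ0 w) (∑ x ∈ τ, x) := by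
    intro w hw
    have := hG.coord_sum hσ0 hτ hw
    by_cases h : w ∈ τ
    · rw [this.1 h]; norm_num
    · rw [this.2 h]
  obtain ⟨σ, hσ, hasg, hle, -⟩ := hG.exists_asg hg hσ0 hV h0
  have hτσ : τ ⊆ σ := by
    intro w hw
    by_contra hwσ
    have h1 := hG.inter σ0 hσ0 σ hσ _ hV h0 hasg.1 w (hτ hw) hwσ
    rw [(hG.coord_sum hσ0 hτ (hτ hw)).1 hw] at h1
    norm_num at h1
  refine ⟨σ, hσ, hle, hτσ, ?_⟩
  intro w hw
  obtain ⟨hwσ, hneg⟩ := mem_II.1 hw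
  have h1 := hasg.2 w hwσ hneg
  by_contra hwτ
  rw [(hG.coord_sum hσ hτσ hwσ).2 hwτ] at h1
  exact lt_irrefl _ h1

theorem hPoly_eq_sum {S : Finset (Finset (Fin n → ℝ))} {d : ℕ} (hd : ∀ σ ∈ S, σ.card = d) :
    hPoly d S = ∑ τ ∈ faces S, (X : ℤ[X]) ^ τ.card * (1 - X) ^ (d - τ.card) := by
  classical
  rw [hPoly]
  have h1 : ∀ τ ∈ faces S, τ.card ∈ range (d + 1) := by
    intro τ hτ
    obtain ⟨σ, hσ, h⟩ := mem_faces.1 hτ
    rw [Finset.mem_range, Nat.lt_succ_iff, ← hd σ hσ]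
    exact Finset.card_le_card h
  rw [← Finset.sum_fiberwise_of_maps_to h1]
  apply Finset.sum_congr rfl
  intro i _
  rw [Finset.sum_congr rfl (g := fun _ => (X : ℤ[X]) ^ i * (1 - X) ^ (d - i))]
  · rw [Finset.sum_const, nsmul_eq_mul, mul_assoc]
  · intro τ hτ
    rw [(Finset.mem_filter.1 hτ).2]

theorem sum_interval {I σ : Finset (Fin n → ℝ)} (h : I ⊆ σ) [DecidableEq (Fin n → ℝ)] :
    ∑ τ ∈ Finset.Icc I σ, (X : ℤ[X]) ^ τ.card * (1 - X) ^ (σ.card - τ.card) = X ^ I.card := by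
  rw [Finset.Icc_eq_image_powerset h, Finset.sum_image]
  · have h1 : ∀ τ ∈ (σ \ I).powerset, (X : ℤ[X]) ^ (I ∪ τ).card * (1 - X) ^ (σ.card - (I ∪ τ).card) =
        X ^ I.card * (X ^ τ.card * (1 - X) ^ ((σ \ I).card - τ.card)) := by
      intro τ hτ
      have hd : Disjoint I τ := by
        rw [Finset.disjoint_left]
        intro x hxI hxτ
        exact (Finset.mem_sdiff.1 (Finset.mem_powerset.1 hτ hxτ)).2 hxI
      rw [Finset.card_union_of_disjoint hd, Finset.card_sdiff_of_subset h, pow_add, mul_assoc,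
        Nat.sub_sub]
    rw [Finset.sum_congr rfl h1, ← Finset.mul_sum, Finset.sum_pow_mul_eq_add_pow]
    simp
  · intro τ hτ τ' hτ' heq
    have key : ∀ τ ∈ (σ \ I).powerset, (I ∪ τ) \ I = τ := by
      intro τ hτ
      ext x
      simp only [Finset.mem_sdiff, Finset.mem_union]
      constructor
      · rintro ⟨h1 | h1, h2⟩
        · exact absurd h1 h2
        · exact h1
      · intro hx
        exact ⟨Or.inr hx, (Finset.mem_sdiff.1 (Finset.mem_powerset.1 hτ hx)).2⟩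
    rw [← key τ hτ, ← key τ' hτ']
    simp only at heq
    rw [heq]

open Classical in
theorem Good.hPoly_filter (hG : Good H v Γ f) {g : Fin n → ℝ} (hg : Pert H Γ f g) (c : ℤ) :
    hPoly (n - 1) (Γ.filter (fun σ => c ≤ hh f v σ)) =
      ∑ σ ∈ Γ.filter (fun σ => c ≤ hh f v σ), (X : ℤ[X]) ^ (II f v g σ).card := by
  have hcard : ∀ σ ∈ Γ.filter (fun σ => c ≤ hh f v σ), σ.card = n - 1 := fun σ hσ =>
    hG.card σ (Finset.mem_filter.1 hσ).1
  rw [hPoly_eq_sum hcard]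
  have hfaces : faces (Γ.filter (fun σ => c ≤ hh f v σ)) =
      (Γ.filter (fun σ => c ≤ hh f v σ)).biUnion (fun σ => Finset.Icc (II f v g σ) σ) := by
    ext τ
    rw [mem_faces, Finset.mem_biUnion]
    constructor
    · rintro ⟨σ0, hσ0, hτ⟩
      obtain ⟨hσ0Γ, hc0⟩ := Finset.mem_filter.1 hσ0
      obtain ⟨σ, hσ, hle, h1, h2⟩ := hG.exists_interval hg hσ0Γ hτ
      exact ⟨σ, Finset.mem_filter.2 ⟨hσ, hc0.trans hle⟩, Finset.mem_Icc.2 ⟨h2, h1⟩⟩
    · rintro ⟨σ, hσ, hτ⟩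
      exact ⟨σ, hσ, (Finset.mem_Icc.1 hτ).2⟩
  rw [hfaces, Finset.sum_biUnion]
  · apply Finset.sum_congr rfl
    intro σ hσ
    rw [← sum_interval (I := II f v g σ) (σ := σ) (fun w hw => (mem_II.1 hw).1)]
    rw [hcard σ hσ]
  · intro σ hσ σ' hσ' hne
    rw [Function.onFun, Finset.disjoint_left]
    intro τ hτ hτ'
    apply hne
    have hσΓ := (Finset.mem_filter.1 (Finset.mem_coe.1 hσ)).1
    have hσΓ' := (Finset.mem_filter.1 (Finset.mem_coe.1 hσ')).1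
    rw [Finset.mem_Icc] at hτ hτ'
    exact hG.asg_unique hg hσΓ hσΓ' (hG.sum_mem_VV hσΓ hτ.2)
      (hG.asg_of_interval hσΓ hτ.2 hτ.1) (hG.asg_of_interval hσΓ' hτ'.2 hτ'.1)

open Classical in
theorem Good.DD_eq (hG : Good H v Γ f) {g : Fin n → ℝ} (hg : Pert H Γ f g) (c : ℕ) :
    DD v Γ c = ∑ σ ∈ Γ.filter (fun σ => latDist v σ = c), (X : ℤ[X]) ^ (II f v g σ).card := by
  have h1 : ∀ σ ∈ Γ, (latDist v σ : ℤ) = hh f v σ := by
    intro σ hσ
    rw [hG.latDist_eq hσ]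
    have := hG.one_le_hh hσ
    omega
  have e1 : Γ.filter (fun σ => c ≤ latDist v σ) = Γ.filter (fun σ => (c : ℤ) ≤ hh f v σ) := by
    apply Finset.filter_congr
    intro σ hσ
    rw [← h1 σ hσ]
    exact_mod_cast Iff.rfl
  have e2 : Γ.filter (fun σ => c < latDist v σ) = Γ.filter (fun σ => (c : ℤ) + 1 ≤ hh f v σ) := by
    apply Finset.filter_congr
    intro σ hσ
    rw [← h1 σ hσ]
    omega
  rw [DD, e1, e2, hG.hPoly_filter hg, hG.hPoly_filter hg, sub_eq_iff_eq_add]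
  rw [← Finset.sum_union]
  · apply Finset.sum_congr _ (fun _ _ => rfl)
    ext σ
    simp only [Finset.mem_union, Finset.mem_filter]
    constructor
    · rintro ⟨hσ, h2⟩
      have := h1 σ hσ
      by_cases h3 : latDist v σ = c
      · exact Or.inl ⟨hσ, h3⟩
      · exact Or.inr ⟨hσ, by omega⟩
    · rintro (⟨hσ, h2⟩ | ⟨hσ, h2⟩)
      · exact ⟨hσ, by have := h1 σ hσ; omega⟩
      · exact ⟨hσ, by omega⟩
  · rw [Finset.disjoint_left]
    intro σ h2 h3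
    obtain ⟨hσ, h4⟩ := Finset.mem_filter.1 h2
    have h5 := (Finset.mem_filter.1 h3).2
    have := h1 σ hσ
    omega

open Classical in
theorem Good.qq_eq (hG : Good H v Γ f) {g : Fin n → ℝ} (hg : Pert H Γ f g) (c : ℕ) :
    qq v Γ c = ∑ σ ∈ Γ.filter (fun σ => latDist v σ = c), ∑ k ∈ range c,
      (X : ℤ[X]) ^ ((II f v g σ).card + k) := by
  rw [qq, hG.DD_eq hg, Finset.sum_mul]
  apply Finset.sum_congr rfl
  intro σ _
  rw [Finset.mul_sum]
  apply Finset.sum_congr rfl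
  intro k _
  rw [pow_add]

theorem Good.qq_nonneg (hG : Good H v Γ f) {g : Fin n → ℝ} (hg : Pert H Γ f g) (c k : ℕ) :
    0 ≤ (qq v Γ c).coeff k := by
  rw [hG.qq_eq hg, Polynomial.finset_sum_coeff]
  apply Finset.sum_nonneg
  intro σ _
  rw [Polynomial.finset_sum_coeff]
  apply Finset.sum_nonneg
  intro j _
  rw [Polynomial.coeff_X_pow]
  split_ifs <;> norm_num

open Classical in
theorem Good.coeff_2q (hG : Good H v Γ f) {g : Fin n → ℝ} (hg : Pert H Γ f g) (c m : ℕ) :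
    (2 * X * qq v Γ c).coeff m = 2 * ∑ σ ∈ Γ.filter (fun σ => latDist v σ = c), ∑ k ∈ range c,
      if m = (II f v g σ).card + k + 1 then (1 : ℤ) else 0 := by
  rw [hG.qq_eq hg, mul_assoc, show (2 : ℤ[X]) = C 2 from rfl, Polynomial.coeff_C_mul]
  congr 1
  rw [Finset.mul_sum, Polynomial.finset_sum_coeff]
  apply Finset.sum_congr rfl
  intro σ _
  rw [Finset.mul_sum, Polynomial.finset_sum_coeff]
  apply Finset.sum_congr rfl
  intro k _
  rw [← pow_succ', Polynomial.coeff_X_pow]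

theorem Good.palin (hG : Good H v Γ f) {g : Fin n → ℝ} (hg : Pert H Γ f g) (c : ℕ) :
    IsPalindromic (n - 1) (2 * X * qq v Γ c) := by
  classical
  intro m
  have hcard : ∀ σ ∈ Γ.filter (fun σ => latDist v σ = c),
      (II f v g σ).card + (II f v (-g) σ).card + c + 1 = n - 1 := by
    intro σ hσ
    obtain ⟨hσΓ, h2⟩ := Finset.mem_filter.1 hσ
    have h1 := hG.card_II hg hσΓ
    have h3 := hG.latDist_eq hσΓ
    have := hG.one_le_hh hσΓ
    omega
  by_cases hm : m ≤ n - 1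
  · rw [if_pos hm, hG.coeff_2q hg, hG.coeff_2q hg.neg]
    congr 1
    apply Finset.sum_congr rfl
    intro σ hσ
    have hc := hcard σ hσ
    rw [← Finset.sum_range_reflect (fun k => if n - 1 - m = (II f v (-g) σ).card + k + 1
      then (1 : ℤ) else 0)]
    apply Finset.sum_congr rfl
    intro k hk
    rw [Finset.mem_range] at hk
    have : m = (II f v g σ).card + k + 1 ↔ n - 1 - m = (II f v (-g) σ).card + (c - 1 - k) + 1 := by
      omega
    simp only [this]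
  · rw [if_neg hm, hG.coeff_2q hg]
    rw [mul_eq_zero]
    right
    apply Finset.sum_eq_zero
    intro σ hσ
    have hc := hcard σ hσ
    apply Finset.sum_eq_zero
    intro k hk
    rw [Finset.mem_range] at hk
    rw [if_neg (by omega)]

end

end Q35.HE
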