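import Pool.Agent.Q35.HE.Basic

namespace Q35.HE

open Finset Filter Topology
open scoped Pointwise

variable {n : ℕ}

theorem zero_mem_SEP {H : SimpleGraph (Fin n)} (hne : (Rt H).Nonempty) : (0 : Fin n → ℝ) ∈ SEP H := by
  obtain ⟨w, hw⟩ := hne
  have h1 : w ∈ SEP H := subset_convexHull ℝ _ hw
  have h2 := neg_mem_SEP h1
  have hc : Convex ℝ (SEP H) := convex_convexHull ℝ _
  have := hc h1 h2 (show (0 : ℝ) ≤ 1 / 2 by norm_num) (show (0 : ℝ) ≤ 1 / 2 by norm_num)
    (by norm_num)
  simpa using this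

theorem SEP_compact (H : SimpleGraph (Fin n)) : IsCompact (SEP H) := by
  rw [SEP_eq]
  exact (Rt_finite H).isCompact_convexHull ℝ

theorem clm_eq_dot (f : (Fin n → ℝ) →ₗ[ℝ] ℝ) (x : Fin n → ℝ) :
    f x = (fun a => f (Pi.single a 1)) ⬝ᵥ x := by
  conv_lhs => rw [pi_eq_sum_univ' x]
  rw [map_sum]
  simp only [dotProduct]
  apply Finset.sum_congr rfl
  intro a _
  rw [map_smul, smul_eq_mul, mul_comm]

/-- Separation: the gauge of `P_H` is the support function of `KK H`. -/
theorem sep {H : SimpleGraph (Fin n)} (hc : H.Connected) (hne : (Rt H).Nonempty) {y : Fin n → ℝ}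
    (hy : y ∈ VV n) {r : ℝ} (h : ∀ u ∈ KK H, u ⬝ᵥ y ≤ r) : y ∈ r • SEP H := by
  by_contra hny
  have hconv : Convex ℝ (r • SEP H) := (convex_convexHull ℝ (Rt H)).smul r
  have hcl : IsClosed (r • SEP H) := ((SEP_compact H).smul r).isClosed
  obtain ⟨f, c, hf, hfc⟩ := geometric_hahn_banach_closed_point hconv hcl hny
  set φ : Fin n → ℝ := fun a => f (Pi.single a 1) with hφ
  have hdot : ∀ x, f x = φ ⬝ᵥ x := fun x => clm_eq_dot (f : (Fin n → ℝ) →ₗ[ℝ] ℝ) x
  obtain ⟨w0, hw0, hmax⟩ := Set.exists_max_image (Rt H) f (Rt_finite H) hne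
  have hM0 : 0 ≤ f w0 := by
    have := hmax _ (neg_mem_Rt hw0)
    rw [map_neg] at this
    linarith
  have h0c : 0 < c := by
    have h1 : (0 : Fin n → ℝ) ∈ r • SEP H := ⟨0, zero_mem_SEP hne, by simp⟩
    have := hf _ h1
    simpa using this
  rcases hM0.eq_or_lt with hM | hM
  · have hconst : ∀ a b, φ a = φ b := by
      apply const_of_conn hc
      intro a b hab
      have h1 := hmax _ ⟨a, b, hab, rfl⟩
      have h2 := hmax _ ⟨b, a, hab.symm, rfl⟩
      rw [hdot, dot_ee, ← hM] at h1 h2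
      linarith
    have := dot_const hconst hy
    rw [← hdot] at this
    linarith
  · have hu : (f w0)⁻¹ • φ ∈ KK H := by
      rw [mem_KK_iff]
      intro w hw
      rw [smul_dotProduct, ← hdot, smul_eq_mul, inv_mul_le_iff₀ hM, mul_one]
      exact hmax w hw
    have h1 := h _ hu
    rw [smul_dotProduct, ← hdot, smul_eq_mul, inv_mul_le_iff₀ hM] at h1
    have h2 : r • w0 ∈ r • SEP H := ⟨w0, subset_convexHull ℝ _ hw0, rfl⟩
    have h3 := hf _ h2
    rw [map_smul, smul_eq_mul] at h3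
    linarith

/-- The tight edges of `u` connect everything. -/
def Tight (H : SimpleGraph (Fin n)) (u : Fin n → ℝ) : Prop :=
  ∀ f : Fin n → ℝ, (∀ a b, H.Adj a b → u a - u b = 1 → f a = f b) → ∀ a b, f a = f b

theorem walk_bound {H : SimpleGraph (Fin n)} {u : Fin n → ℝ} (hu : u ∈ KK H) {a b : Fin n}
    (p : H.Walk a b) : u a - u b ≤ p.length := by
  induction p with
  | nil => simp
  | cons hab p ih =>
    have := hu _ _ hab
    rw [SimpleGraph.Walk.length_cons]
    push_cast
    linarith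

/-- Every `y` is maximised over `KK H` by a facet functional. -/
theorem exists_facet {H : SimpleGraph (Fin n)} (hc : H.Connected) {y : Fin n → ℝ}
    (hy : y ∈ VV n) : ∃ u ∈ KK H, (∀ u' ∈ KK H, u' ⬝ᵥ y ≤ u ⬝ᵥ y) ∧ Tight H u := by
  obtain ⟨a0⟩ := hc.nonempty
  set K0 : Set (Fin n → ℝ) := {u | u ∈ KK H ∧ u a0 = 0} with hK0
  have hbd : ∃ B : ℝ, ∀ u ∈ K0, ∀ a, |u a| ≤ B := by
    refine ⟨∑ a, (H.dist a a0 : ℝ), fun u hu a => ?_⟩
    obtain ⟨p, hp⟩ := (hc.preconnected a a0).exists_walk_length_eq_dist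
    have h1 := walk_bound hu.1 p
    have h2 := walk_bound hu.1 p.reverse
    rw [SimpleGraph.Walk.length_reverse] at h2
    rw [hu.2] at h1 h2
    rw [hp] at h1 h2
    have h3 : (H.dist a a0 : ℝ) ≤ ∑ a, (H.dist a a0 : ℝ) :=
      Finset.single_le_sum (f := fun a => (H.dist a a0 : ℝ)) (fun i _ => Nat.cast_nonneg _)
        (Finset.mem_univ a)
    rw [abs_le]
    constructor <;> linarith
  obtain ⟨B, hB⟩ := hbd
  have hcl : IsClosed K0 := by
    have : K0 = (⋂ (a) (b) (_ : H.Adj a b), {u : Fin n → ℝ | u a - u b ≤ 1}) ∩ {u | u a0 = 0} := by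
      ext u
      simp only [hK0, KK, Set.mem_inter_iff, Set.mem_iInter]
      exact Iff.rfl
    rw [this]
    refine IsClosed.inter ?_ ?_
    · refine isClosed_iInter fun a => isClosed_iInter fun b => isClosed_iInter fun _ => ?_
      exact isClosed_le (by fun_prop) (by fun_prop)
    · exact isClosed_eq (by fun_prop) (by fun_prop)
  have hcomp : IsCompact K0 := by
    apply IsCompact.of_isClosed_subset (isCompact_Icc (a := fun _ : Fin n => -B)
      (b := fun _ : Fin n => B)) hcl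
    intro u hu
    exact ⟨fun a => (abs_le.1 (hB u hu a)).1, fun a => (abs_le.1 (hB u hu a)).2⟩
  have hne : K0.Nonempty := ⟨0, by
    refine ⟨fun a b _ => ?_, rfl⟩
    simp⟩
  have hcont : Continuous (fun u : Fin n → ℝ => u ⬝ᵥ y) := by
    simp only [dotProduct]
    fun_prop
  set A : Set (Fin n → ℝ) := {u | u ∈ K0 ∧ ∀ u' ∈ K0, u' ⬝ᵥ y ≤ u ⬝ᵥ y} with hA
  have hAne : A.Nonempty := by
    obtain ⟨u, hu, hmax⟩ := hcomp.exists_isMaxOn hne hcont.continuousOn
    exact ⟨u, hu, fun u' hu' => hmax hu'⟩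
  have hAcl : IsClosed A := by
    have : A = K0 ∩ ⋂ u' ∈ K0, {u : Fin n → ℝ | u' ⬝ᵥ y ≤ u ⬝ᵥ y} := by
      ext u
      simp only [hA, Set.mem_inter_iff, Set.mem_iInter]
      exact Iff.rfl
    rw [this]
    refine hcl.inter ?_
    exact isClosed_iInter fun u' => isClosed_iInter fun _ => isClosed_le continuous_const hcont
  have hAcomp : IsCompact A := hcomp.of_isClosed_subset hAcl (fun u hu => hu.1)
  obtain ⟨u, hu⟩ := hAcomp.extremePoints_nonempty hAne
  obtain ⟨⟨⟨huK, hua0⟩, hmax⟩, hext⟩ := mem_extremePoints.1 hu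
  refine ⟨u, huK, ?_, ?_⟩
  · intro u' hu'
    have h1 : (fun a => u' a - u' a0) ∈ K0 := by
      refine ⟨fun a b hab => ?_, sub_self _⟩
      have := hu' a b hab
      simp only
      linarith
    have h2 := hmax _ h1
    have h3 : (fun a => u' a - u' a0) ⬝ᵥ y = u' ⬝ᵥ y := by
      have : (fun a => u' a - u' a0) = u' - (fun _ => u' a0) := rfl
      rw [this, sub_dotProduct, dot_const (f := fun _ => u' a0) (fun _ _ => rfl) hy, sub_zero]
    rwa [h3] at h2
  · intro f hf
    set g : Fin n → ℝ := fun a => f a - f a0 with hg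
    have hgt : ∀ a b, H.Adj a b → u a - u b = 1 → g a = g b := by
      intro a b hab h1
      simp only [hg]
      rw [hf a b hab h1]
    have hev : ∀ᶠ ε in 𝓝 (0 : ℝ), ∀ a b, H.Adj a b → u a - u b + ε * (g a - g b) ≤ 1 := by
      rw [eventually_all]
      intro a
      rw [eventually_all]
      intro b
      by_cases hab : H.Adj a b
      · by_cases h1 : u a - u b = 1
        · refine Eventually.of_forall fun ε _ => ?_
          rw [hgt a b hab h1, h1]
          simp
        · have h2 : u a - u b + 0 * (g a - g b) < 1 := by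
            rw [zero_mul, add_zero]
            exact lt_of_le_of_ne (huK a b hab) h1
          have h3 : ContinuousAt (fun ε : ℝ => u a - u b + ε * (g a - g b)) 0 := by fun_prop
          filter_upwards [h3.eventually_lt continuousAt_const h2] with ε hε _
          exact hε.le
      · exact Eventually.of_forall fun ε h => absurd h hab
    have hev2 : ∀ᶠ ε in 𝓝[>] (0 : ℝ), (∀ a b, H.Adj a b → u a - u b + ε * (g a - g b) ≤ 1) ∧
        (∀ a b, H.Adj a b → u a - u b - ε * (g a - g b) ≤ 1) ∧ 0 < ε := by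
      have h1 := hev.filter_mono (nhdsWithin_le_nhds (s := Set.Ioi (0 : ℝ)))
      have h2 : ∀ᶠ ε in 𝓝 (0 : ℝ), ∀ a b, H.Adj a b → u a - u b + (-ε) * (g a - g b) ≤ 1 := by
        have h3 : Tendsto (fun ε : ℝ => -ε) (𝓝 0) (𝓝 0) := by
          have : Continuous (fun ε : ℝ => -ε) := by fun_prop
          simpa using this.tendsto 0
        exact h3.eventually hev
      have h2' := h2.filter_mono (nhdsWithin_le_nhds (s := Set.Ioi (0 : ℝ)))
      filter_upwards [h1, h2', self_mem_nhdsWithin] with ε h1 h2 h3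
      refine ⟨h1, fun a b hab => ?_, h3⟩
      have := h2 a b hab
      linarith
    obtain ⟨ε, he1, he2, he3⟩ := hev2.exists
    have hp : u + ε • g ∈ K0 := by
      refine ⟨fun a b hab => ?_, ?_⟩
      · have := he1 a b hab
        simp only [Pi.add_apply, Pi.smul_apply, smul_eq_mul]
        linarith
      · simp [hua0, hg]
    have hm : u - ε • g ∈ K0 := by
      refine ⟨fun a b hab => ?_, ?_⟩
      · have := he2 a b hab
        simp only [Pi.sub_apply, Pi.smul_apply, smul_eq_mul]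
        linarith
      · simp [hua0, hg]
    have h1 := hmax _ hp
    have h2 := hmax _ hm
    rw [add_dotProduct] at h1
    rw [sub_dotProduct] at h2
    have h3 : (ε • g) ⬝ᵥ y = 0 := by linarith
    have hpA : u + ε • g ∈ A := ⟨hp, fun u' hu' => by
      rw [add_dotProduct, h3, add_zero]; exact hmax u' hu'⟩
    have hmA : u - ε • g ∈ A := ⟨hm, fun u' hu' => by
      rw [sub_dotProduct, h3, sub_zero]; exact hmax u' hu'⟩
    have hseg : u ∈ openSegment ℝ (u + ε • g) (u - ε • g) := by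
      refine ⟨1 / 2, 1 / 2, by norm_num, by norm_num, by norm_num, ?_⟩
      rw [← smul_add, add_add_sub_cancel, ← two_smul ℝ u, smul_smul]
      norm_num
    have h4 := (hext _ hpA _ hmA hseg).1
    have h5 : ε • g = 0 := by
      simpa using h4
    have h6 : g = 0 := (smul_eq_zero.1 h5).resolve_left he3.ne'
    intro a b
    have ha := congrFun h6 a
    have hb := congrFun h6 b
    simp only [hg, Pi.zero_apply] at ha hb
    linarith

/-- The roots that are tight for a facet functional span the hyperplane. -/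
theorem tight_span {H : SimpleGraph (Fin n)} {u : Fin n → ℝ} (ht : Tight H u) :
    VV n ≤ Submodule.span ℝ {w | w ∈ Rt H ∧ u ⬝ᵥ w = 1} := by
  intro x hx
  by_contra hnx
  obtain ⟨φ, hφ, hφ'⟩ := Submodule.exists_dual_map_eq_bot_of_notMem hnx inferInstance
  apply hφ
  have h1 : ∀ z, φ z = (fun a => φ (Pi.single a 1)) ⬝ᵥ z := fun z => clm_eq_dot φ z
  rw [h1]
  apply dot_const _ hx
  apply ht
  intro a b hab hu
  have h2 : ee ℝ a b ∈ Submodule.span ℝ {w | w ∈ Rt H ∧ u ⬝ᵥ w = 1} :=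
    Submodule.subset_span ⟨⟨a, b, hab, rfl⟩, by rw [dot_ee, hu]⟩
  have h3 : φ (ee ℝ a b) ∈ Submodule.map φ (Submodule.span ℝ {w | w ∈ Rt H ∧ u ⬝ᵥ w = 1}) :=
    ⟨_, h2, rfl⟩
  rw [hφ', Submodule.mem_bot, h1, dot_ee] at h3
  linarith

theorem tight_nonempty {H : SimpleGraph (Fin n)} (hn : 2 ≤ n) {u : Fin n → ℝ} (ht : Tight H u) :
    ∃ w ∈ Rt H, u ⬝ᵥ w = 1 := by
  by_contra hno
  push Not at hno
  have h1 := ht (fun a => if a = ⟨0, by omega⟩ then 1 else 0) (by
    intro a b hab hu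
    exfalso
    exact hno _ ⟨a, b, hab, rfl⟩ (by rw [dot_ee, hu])) ⟨0, by omega⟩ ⟨1, by omega⟩
  simp at h1

theorem facet_dim {H : SimpleGraph (Fin n)} (hn : 2 ≤ n) {u : Fin n → ℝ} (ht : Tight H u) :
    Module.finrank ℝ (vectorSpan ℝ {x | x ∈ SEP H ∧ u ⬝ᵥ x = 1}) = n - 2 := by
  obtain ⟨w0, hw0, huw0⟩ := tight_nonempty hn ht
  set F : Set (Fin n → ℝ) := {x | x ∈ SEP H ∧ u ⬝ᵥ x = 1} with hF
  set W := vectorSpan ℝ F with hW
  have hw0F : w0 ∈ F := ⟨subset_convexHull ℝ _ hw0, huw0⟩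
  have hWle : W ≤ VV n := by
    rw [hW, vectorSpan_def, Submodule.span_le]
    rintro _ ⟨x, hx, y, hy, rfl⟩
    exact (VV n).sub_mem (SEP_subset_VV H hx.1) (SEP_subset_VV H hy.1)
  have hWu : ∀ x ∈ W, u ⬝ᵥ x = 0 := by
    intro x hx
    rw [hW, vectorSpan_def] at hx
    induction hx using Submodule.span_induction with
    | mem x hx =>
      obtain ⟨y, hy, z, hz, rfl⟩ := hx
      simp only [vsub_eq_sub]
      rw [dotProduct_sub, hy.2, hz.2, sub_self]
    | zero => simp
    | add x y _ _ hx hy => rw [dotProduct_add, hx, hy, add_zero]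
    | smul c x _ hx => rw [dotProduct_smul, hx, smul_zero]
  have hlt : W < VV n := by
    refine lt_of_le_of_ne hWle fun h => ?_
    have : w0 ∈ W := by rw [h]; exact Rt_subset_VV H hw0
    have := hWu _ this
    rw [huw0] at this
    norm_num at this
  have h1 := Submodule.finrank_lt_finrank_of_lt hlt
  have h2 := finrank_VV (n := n) (by omega)
  have h3 : VV n ≤ W ⊔ Submodule.span ℝ {w0} := by
    refine (tight_span ht).trans ?_
    rw [Submodule.span_le]
    rintro w ⟨hw, huw⟩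
    have hwF : w ∈ F := ⟨subset_convexHull ℝ _ hw, huw⟩
    have : w = (w - w0) + w0 := by abel
    rw [this]
    exact Submodule.add_mem_sup (vsub_mem_vectorSpan ℝ hwF hw0F)
      (Submodule.mem_span_singleton_self w0)
  have h4 := Submodule.finrank_mono h3
  have h5 := Submodule.finrank_add_le_finrank_add_finrank W (Submodule.span ℝ {w0})
  have h6 : Module.finrank ℝ (Submodule.span ℝ {w0}) ≤ 1 := finrank_span_le_card {w0} |>.trans (by simp)
  omega

end Q35.HE
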