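import Pool.Agent.Q35.HE.Ehr

namespace Q35.HE

open Finset Filter Topology
open scoped Pointwise

variable {n : ℕ}

theorem mem_smul_H {H : SimpleGraph (Fin n)} (hc : H.Connected) (hne : (Rt H).Nonempty) (m : ℕ)
    (x : Fin n → ℤ) : rr x ∈ (m : ℝ) • SEP H ↔ ∑ a, x a = 0 ∧ ∀ u ∈ KK H, u ⬝ᵥ rr x ≤ m := by
  constructor
  · rintro ⟨p, hp, hpx⟩
    simp only at hpx
    constructor
    · have h1 : rr x ∈ VV n := by
        rw [← hpx]
        exact (VV n).smul_mem _ (SEP_subset_VV H hp)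
      rw [mem_VV] at h1
      simp only [rr] at h1
      exact_mod_cast h1
    · intro u hu
      have h1 : u ⬝ᵥ p ≤ 1 := SEP_le (fun w hw => KK_root hu hw) p hp
      rw [← hpx, dotProduct_smul, smul_eq_mul]
      calc (m : ℝ) * u ⬝ᵥ p ≤ m * 1 := by gcongr
        _ = m := mul_one _
  · rintro ⟨h1, h2⟩
    exact sep hc hne (rr_mem_VV h1) h2

theorem finite_H (H : SimpleGraph (Fin n)) (m : ℕ) :
    Finite {x : Fin n → ℤ // rr x ∈ (m : ℝ) • SEP H} := by
  have h1 : {x : Fin n → ℤ | rr x ∈ (m : ℝ) • SEP H} ⊆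
      Set.Icc (fun _ => -(m : ℤ)) (fun _ => (m : ℤ)) := by
    rintro x ⟨p, hp, hpx⟩
    simp only at hpx
    have key : ∀ a, |p a| ≤ 1 := by
      intro a
      have h2 : ∀ w ∈ Rt H, (Pi.single a 1 : Fin n → ℝ) ⬝ᵥ w ≤ 1 := by
        rintro w ⟨c, d, hcd, rfl⟩
        have hne := hcd.ne
        rw [dot_ee]
        simp only [Pi.single_apply]
        split_ifs <;> norm_num
      have h3 : ∀ w ∈ Rt H, (-Pi.single a 1 : Fin n → ℝ) ⬝ᵥ w ≤ 1 := by
        rintro w ⟨c, d, hcd, rfl⟩
        have hne := hcd.ne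
        rw [dot_ee]
        simp only [Pi.neg_apply, Pi.single_apply]
        split_ifs <;> norm_num
      have h4 := SEP_le h2 p hp
      have h5 := SEP_le h3 p hp
      rw [neg_dotProduct] at h5
      simp only [single_dotProduct, one_mul] at h4 h5
      rw [abs_le]
      constructor <;> linarith
    have hxa : ∀ a, |(x a : ℝ)| ≤ m := by
      intro a
      have h6 : (x a : ℝ) = m * p a := by
        have := congrFun hpx a
        simp only [Pi.smul_apply, smul_eq_mul, rr] at this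
        exact this.symm
      rw [h6, abs_mul, Nat.abs_cast]
      calc (m : ℝ) * |p a| ≤ m * 1 := by gcongr; exact key a
        _ = m := mul_one _
    constructor
    · intro a
      have := (abs_le.1 (hxa a)).1
      have h7 : -(m : ℤ) ≤ x a := by exact_mod_cast this
      exact h7
    · intro a
      have := (abs_le.1 (hxa a)).2
      have h7 : x a ≤ (m : ℤ) := by exact_mod_cast this
      exact h7
  exact (Set.finite_Icc _ _).subset h1

section
variable {G : SimpleGraph (Fin n)} {i j : Fin n}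

theorem adj_del : ∀ a b, (G.deleteEdges {s(i, j)}).Adj a b ↔
    G.Adj a b ∧ ¬ ((a = i ∧ b = j) ∨ (a = j ∧ b = i)) := by
  intro a b
  rw [SimpleGraph.deleteEdges_adj]
  simp only [Set.mem_singleton_iff, Sym2.eq_iff]

theorem mem_smul_G (hadj : G.Adj i j) (hc : (G.deleteEdges {s(i, j)}).Connected)
    (hne : (Rt (G.deleteEdges {s(i, j)})).Nonempty) (m : ℕ) (hm : 0 < m)
    (x : Fin n → ℤ) : rr x ∈ (m : ℝ) • SEP G ↔ ∑ a, x a = 0 ∧ ∃ s : ℝ, |s| ≤ m ∧
      ∀ u ∈ KK (G.deleteEdges {s(i, j)}), u ⬝ᵥ rr x - s * (u ⬝ᵥ rr (ee ℤ i j)) ≤ m - |s| := by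
  set H := G.deleteEdges {s(i, j)} with hH
  have hrrv : rr (ee ℤ i j) = ee ℝ i j := (ee_cast i j).symm
  have hm0 : (0 : ℝ) < m := by exact_mod_cast hm
  constructor
  · rintro ⟨p, hp, hpx⟩
    simp only at hpx
    have hpV : p ∈ VV n := SEP_subset_VV G hp
    refine ⟨?_, ?_⟩
    · have h1 : rr x ∈ VV n := by
        rw [← hpx]
        exact (VV n).smul_mem _ hpV
      rw [mem_VV] at h1
      simp only [rr] at h1
      exact_mod_cast h1
    · have hsub : SEP G ⊆ {p : Fin n → ℝ | ∃ s : ℝ, |s| ≤ 1 ∧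
          ∀ u ∈ KK H, u ⬝ᵥ p - s * (u ⬝ᵥ ee ℝ i j) ≤ 1 - |s|} := by
        rw [SEP_eq]
        apply convexHull_min
        · rintro w ⟨a, b, hab, rfl⟩
          by_cases h1 : a = i ∧ b = j
          · obtain ⟨rfl, rfl⟩ := h1
            refine ⟨1, by norm_num, fun u hu => ?_⟩
            norm_num
          · by_cases h2 : a = j ∧ b = i
            · obtain ⟨rfl, rfl⟩ := h2
              refine ⟨-1, by norm_num, fun u hu => ?_⟩
              rw [dot_ee, dot_ee]
              norm_num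
            · refine ⟨0, by norm_num, fun u hu => ?_⟩
              have h3 : H.Adj a b := (adj_del a b).2 ⟨hab, by tauto⟩
              have := KK_root hu ⟨a, b, h3, rfl⟩
              simpa using this
        · rintro p ⟨s, hs1, hs2⟩ q ⟨t, ht1, ht2⟩ α β hα hβ hαβ
          refine ⟨α * s + β * t, ?_, fun u hu => ?_⟩
          · calc |α * s + β * t| ≤ |α * s| + |β * t| := abs_add_le _ _
              _ = α * |s| + β * |t| := by rw [abs_mul, abs_mul, abs_of_nonneg hα, abs_of_nonneg hβ]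
              _ ≤ α * 1 + β * 1 := by gcongr
              _ = 1 := by rw [mul_one, mul_one, hαβ]
          · have h1 := hs2 u hu
            have h2 := ht2 u hu
            have h3 : |α * s + β * t| ≤ α * |s| + β * |t| := by
              calc |α * s + β * t| ≤ |α * s| + |β * t| := abs_add_le _ _
                _ = α * |s| + β * |t| := by
                  rw [abs_mul, abs_mul, abs_of_nonneg hα, abs_of_nonneg hβ]
            rw [dotProduct_add, dotProduct_smul, dotProduct_smul, smul_eq_mul, smul_eq_mul]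
            have h4 := mul_le_mul_of_nonneg_left h1 hα
            have h5 := mul_le_mul_of_nonneg_left h2 hβ
            have h6 : α * (1 - |s|) + β * (1 - |t|) = 1 - (α * |s| + β * |t|) := by
              have h8 : α * (1 - |s|) + β * (1 - |t|) = (α + β) - (α * |s| + β * |t|) := by ring
              rw [h8, hαβ]
            have h7 : α * (u ⬝ᵥ p - s * u ⬝ᵥ ee ℝ i j) + β * (u ⬝ᵥ q - t * u ⬝ᵥ ee ℝ i j) =
              α * u ⬝ᵥ p + β * u ⬝ᵥ q - (α * s + β * t) * u ⬝ᵥ ee ℝ i j := by ring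
            linarith
      obtain ⟨s, hs1, hs2⟩ := hsub hp
      refine ⟨m * s, ?_, fun u hu => ?_⟩
      · rw [abs_mul, Nat.abs_cast]
        calc (m : ℝ) * |s| ≤ m * 1 := by gcongr
          _ = m := mul_one _
      · rw [← hpx, dotProduct_smul, smul_eq_mul, abs_mul, Nat.abs_cast, hrrv]
        have h1 := mul_le_mul_of_nonneg_left (hs2 u hu) hm0.le
        linarith
  · rintro ⟨h1, s, hs1, hs2⟩
    have hyV : rr x - s • rr (ee ℤ i j) ∈ VV n := by
      rw [hrrv]
      exact (VV n).sub_mem (rr_mem_VV h1) ((VV n).smul_mem _ (ee_mem_VV i j))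
    have h2 := sep hc hne hyV (r := m - |s|) (by
      intro u hu
      rw [dotProduct_sub, dotProduct_smul, smul_eq_mul]
      exact hs2 u hu)
    obtain ⟨p, hp, hpx⟩ := h2
    simp only at hpx
    have hHG : SEP H ⊆ SEP G := by
      rw [SEP_eq, SEP_eq]
      apply convexHull_mono
      rintro w ⟨a, b, hab, rfl⟩
      exact ⟨a, b, ((adj_del a b).1 hab).1, rfl⟩
    have hG : Convex ℝ (SEP G) := convex_convexHull ℝ _
    have hpG : p ∈ SEP G := hHG hp
    have hvG : ee ℝ i j ∈ SEP G := subset_convexHull ℝ _ ⟨i, j, hadj, rfl⟩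
    have hvG' : -ee ℝ i j ∈ SEP G := neg_mem_SEP hvG
    have hex : ∃ q ∈ SEP G, s • ee ℝ i j = |s| • q := by
      rcases le_total 0 s with h | h
      · exact ⟨_, hvG, by rw [abs_of_nonneg h]⟩
      · exact ⟨_, hvG', by rw [abs_of_nonpos h, smul_neg, neg_smul, neg_neg]⟩
    obtain ⟨q, hq, hsq⟩ := hex
    have h3 := hG hpG hq (show 0 ≤ ((m : ℝ) - |s|) / m by
      apply div_nonneg _ hm0.le; linarith) (show 0 ≤ |s| / m by positivity) (by
      rw [← add_div, sub_add_cancel, div_self hm0.ne'])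
    refine ⟨_, h3, ?_⟩
    simp only
    rw [smul_add, smul_smul, smul_smul, mul_div_cancel₀ _ hm0.ne', mul_div_cancel₀ _ hm0.ne', hpx,
      ← hsq, hrrv]
    abel

theorem latCount_eq (hadj : G.Adj i j) (hc : (G.deleteEdges {s(i, j)}).Connected)
    (hne : (Rt (G.deleteEdges {s(i, j)})).Nonempty) (m : ℕ) (hm : 0 < m)
    (hfin : Finite {x : Fin n → ℤ // Qp (G.deleteEdges {s(i, j)}) (ee ℤ i j) m x}) :
    latCount (SEP G) m = latCount (SEP (G.deleteEdges {s(i, j)})) m +
      2 * Nat.card {x : Fin n → ℤ // Qp (G.deleteEdges {s(i, j)}) (ee ℤ i j) m x} := by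
  set H := G.deleteEdges {s(i, j)} with hH
  set v := ee ℤ i j with hv
  have hm0 : (0 : ℝ) < m := by exact_mod_cast hm
  have rrneg : ∀ x : Fin n → ℤ, rr (-x) = -rr x := by
    intro x; funext a; simp [rr]
  have hQG : ∀ x, Qp H v m x → rr x ∈ (m : ℝ) • SEP G := by
    rintro x ⟨hx, -, s, hs0, hsm, hs⟩
    rw [mem_smul_G hadj hc hne m hm]
    exact ⟨hx, s, by rwa [abs_of_pos hs0], fun u hu => by rw [abs_of_pos hs0]; exact hs u hu⟩
  have hQG' : ∀ x, Qp H v m x → rr (-x) ∈ (m : ℝ) • SEP G := by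
    intro x hx
    obtain ⟨p, hp, hpx⟩ := hQG x hx
    refine ⟨-p, neg_mem_SEP hp, ?_⟩
    simp only at hpx ⊢
    rw [smul_neg, hpx, rrneg]
  have hHG : ∀ x, rr x ∈ (m : ℝ) • SEP H → rr x ∈ (m : ℝ) • SEP G := by
    intro x hx
    rw [mem_smul_H hc hne] at hx
    rw [mem_smul_G hadj hc hne m hm]
    refine ⟨hx.1, 0, by simp, fun u hu => ?_⟩
    have := hx.2 u hu
    simpa using this
  have hnot : ∀ x, Qp H v m x → ¬ rr x ∈ (m : ℝ) • SEP H := by
    rintro x ⟨hx, ⟨u, hu, hu'⟩, -⟩ h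
    rw [mem_smul_H hc hne] at h
    have := h.2 u hu
    linarith
  have hnot' : ∀ x, Qp H v m x → ¬ rr (-x) ∈ (m : ℝ) • SEP H := by
    rintro x ⟨hx, ⟨u, hu, hu'⟩, -⟩ h
    rw [mem_smul_H hc hne] at h
    have := h.2 (-u) (neg_mem_KK hu)
    rw [rrneg, neg_dotProduct, dotProduct_neg, neg_neg] at this
    linarith
  have hdisj : ∀ x, Qp H v m x → ¬ Qp H v m (-x) := by
    rintro x ⟨hx, ⟨u, hu, hu'⟩, s, hs0, hsm, hs⟩ ⟨-, -, t, ht0, htm, ht⟩
    have h1 := hs u hu
    have h2 := ht (-u) (neg_mem_KK hu)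
    rw [rrneg, neg_dotProduct, dotProduct_neg, neg_neg, neg_dotProduct] at h2
    have h3 := mul_le_mul_of_nonneg_left h1 ht0.le
    have h4 := mul_le_mul_of_nonneg_left h2 hs0.le
    have h5 : (s + t) * (u ⬝ᵥ rr x) ≤ (s + t) * m - 2 * (s * t) := by nlinarith
    have h6 : (s + t) * m < (s + t) * (u ⬝ᵥ rr x) := by
      apply mul_lt_mul_of_pos_left hu'; linarith
    have h7 : 0 < s * t := mul_pos hs0 ht0
    linarith
  have hcase : ∀ x, rr x ∈ (m : ℝ) • SEP G → rr x ∈ (m : ℝ) • SEP H ∨ Qp H v m x ∨ Qp H v m (-x) := by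
    intro x hx
    rw [mem_smul_G hadj hc hne m hm] at hx
    obtain ⟨hx0, s, hs1, hs2⟩ := hx
    by_cases hB : ∀ u ∈ KK H, u ⬝ᵥ rr x ≤ m
    · left
      rw [mem_smul_H hc hne]
      exact ⟨hx0, hB⟩
    · right
      push Not at hB
      obtain ⟨u, hu, hu'⟩ := hB
      rcases lt_trichotomy s 0 with h | h | h
      · right
        refine ⟨?_, ⟨-u, neg_mem_KK hu, ?_⟩, -s, by linarith, ?_, fun u' hu'' => ?_⟩
        · simp only [Pi.neg_apply, Finset.sum_neg_distrib, hx0, neg_zero]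
        · rw [rrneg, neg_dotProduct, dotProduct_neg, neg_neg]; exact hu'
        · rw [abs_of_neg h] at hs1; exact hs1
        · have := hs2 (-u') (neg_mem_KK hu'')
          rw [neg_dotProduct, neg_dotProduct, abs_of_neg h] at this
          rw [rrneg, dotProduct_neg]
          linarith
      · exfalso
        have := hs2 u hu
        rw [h] at this
        simp at this
        linarith
      · left
        refine ⟨hx0, ⟨u, hu, hu'⟩, s, h, ?_, fun u' hu'' => ?_⟩
        · rw [abs_of_pos h] at hs1; exact hs1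
        · have := hs2 u' hu''
          rw [abs_of_pos h] at this
          exact this
  have hfinH := finite_H H m
  let F : {x : Fin n → ℤ // rr x ∈ (m : ℝ) • SEP H} ⊕ ({x : Fin n → ℤ // Qp H v m x} ⊕
      {x : Fin n → ℤ // Qp H v m x}) → {x : Fin n → ℤ // rr x ∈ (m : ℝ) • SEP G} :=
    Sum.elim (fun x => ⟨x.1, hHG x.1 x.2⟩)
      (Sum.elim (fun x => ⟨x.1, hQG x.1 x.2⟩) (fun x => ⟨-x.1, hQG' x.1 x.2⟩))
  have hF : Function.Bijective F := by
    constructor
    · rintro (⟨x, hx⟩ | ⟨x, hx⟩ | ⟨x, hx⟩) (⟨y, hy⟩ | ⟨y, hy⟩ | ⟨y, hy⟩) heq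
      · have h1 : x = y := congrArg Subtype.val heq
        subst h1; rfl
      · have h1 : x = y := congrArg Subtype.val heq
        subst h1; exact absurd hx (hnot x hy)
      · have h1 : x = -y := congrArg Subtype.val heq
        subst h1; exact absurd hx (hnot' y hy)
      · have h1 : x = y := congrArg Subtype.val heq
        subst h1; exact absurd hy (hnot x hx)
      · have h1 : x = y := congrArg Subtype.val heq
        subst h1; rfl
      · have h1 : x = -y := congrArg Subtype.val heq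
        subst h1; exact absurd hx (hdisj y hy)
      · have h1 : -x = y := congrArg Subtype.val heq
        subst h1; exact absurd hy (hnot' x hx)
      · have h1 : -x = y := congrArg Subtype.val heq
        subst h1; exact absurd hy (hdisj x hx)
      · have h1 : -x = -y := congrArg Subtype.val heq
        have h2 := neg_injective h1
        subst h2; rfl
    · rintro ⟨x, hx⟩
      rcases hcase x hx with h | h | h
      · exact ⟨Sum.inl ⟨x, h⟩, rfl⟩
      · exact ⟨Sum.inr (Sum.inl ⟨x, h⟩), rfl⟩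
      · refine ⟨Sum.inr (Sum.inr ⟨-x, h⟩), ?_⟩
        apply Subtype.ext
        exact neg_neg x
  have h1 := Nat.card_congr (Equiv.ofBijective F hF)
  rw [Nat.card_sum, Nat.card_sum] at h1
  change Nat.card {x : Fin n → ℤ // rr x ∈ (m : ℝ) • SEP G} =
    Nat.card {x : Fin n → ℤ // rr x ∈ (m : ℝ) • SEP H} + _
  rw [← h1]
  ring

theorem main_thm (hadj : G.Adj i j) (hc : (G.deleteEdges {s(i, j)}).Connected)
    (Γ : Finset (Finset (Fin n → ℝ)))
    (hT : IsTriangulation (SEP (G.deleteEdges {s(i, j)})) (ee ℝ i j) Γ) :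
    hstar (n - 1) (SEP G) - hstar (n - 1) (SEP (G.deleteEdges {s(i, j)})) =
      ((2 * Polynomial.X * ∑ c ∈ Γ.image (latDist (ee ℤ i j)), qq (ee ℤ i j) Γ c : Polynomial ℤ) :
        PowerSeries ℤ) ∧
    ∀ c ∈ Γ.image (latDist (ee ℤ i j)), (∀ k, 0 ≤ (qq (ee ℤ i j) Γ c).coeff k) ∧
      IsPalindromic (n - 1) (2 * Polynomial.X * qq (ee ℤ i j) Γ c) := by
  classical
  set H := G.deleteEdges {s(i, j)} with hH
  have hij : i ≠ j := hadj.ne
  obtain ⟨f, hG⟩ := exists_good hc hij hT
  obtain ⟨g, hg⟩ := hG.exists_pert hc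
  have hne : (Rt H).Nonempty := by
    by_contra hno
    have hconst : ∀ a b : Fin n, (fun x : Fin n => if x = i then (1 : ℝ) else 0) a =
        (fun x : Fin n => if x = i then (1 : ℝ) else 0) b := by
      apply const_of_conn hc
      intro a b hab
      exact absurd ⟨_, a, b, hab, rfl⟩ hno
    have := hconst i j
    simp [hij.symm] at this
  have hn := hG.hn
  refine ⟨?_, fun c _ => ⟨fun k => hG.qq_nonneg hg c k, hG.palin hg c⟩⟩
  have hQ : (PowerSeries.mk (fun m => if m = 0 then 1 else (latCount (SEP G) m : ℤ))) -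
      (PowerSeries.mk (fun m => if m = 0 then 1 else (latCount (SEP H) m : ℤ))) =
      2 * ∑ σ ∈ Γ, (PowerSeries.X ^ ((II f (ee ℤ i j) g σ).card + 1) *
        (∑ k ∈ range (latDist (ee ℤ i j) σ), PowerSeries.X ^ k) *
        (PowerSeries.mk (fun _ => (1 : ℤ))) ^ n) := by
    ext m
    have h2 : (2 : PowerSeries ℤ) = PowerSeries.C 2 := by rfl
    rw [map_sub, PowerSeries.coeff_mk, PowerSeries.coeff_mk, h2, PowerSeries.coeff_C_mul, map_sum]
    obtain ⟨hfin, hcard⟩ := hG.card_Qp hg m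
    rw [← hcard]
    by_cases hm : m = 0
    · subst hm
      rw [if_pos rfl, if_pos rfl]
      have : IsEmpty {x : Fin n → ℤ // Qp H (ee ℤ i j) 0 x} := by
        refine ⟨fun ⟨x, hx⟩ => ?_⟩
        obtain ⟨-, -, s, hs0, hs1, -⟩ := hx
        push_cast at hs1
        linarith
      rw [Nat.card_of_isEmpty]
      norm_num
    · rw [if_neg hm, if_neg hm, latCount_eq hadj hc hne m (Nat.pos_of_ne_zero hm) hfin]
      push_cast
      ring
  rw [hstar, hstar, ← mul_sub, hQ]
  have hn1 : n - 1 + 1 = n := by omega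
  rw [hn1]
  have hinv : (1 - PowerSeries.X : PowerSeries ℤ) ^ n * (PowerSeries.mk (fun _ => (1 : ℤ))) ^ n = 1 := by
    rw [← mul_pow]
    have : (1 - PowerSeries.X : PowerSeries ℤ) * (PowerSeries.mk (fun _ => (1 : ℤ))) = 1 := by
      rw [mul_comm]
      exact PowerSeries.mk_one_mul_one_sub_eq_one ℤ
    rw [this, one_pow]
  have hL : (1 - PowerSeries.X : PowerSeries ℤ) ^ n *
      (2 * ∑ σ ∈ Γ, (PowerSeries.X ^ ((II f (ee ℤ i j) g σ).card + 1) *
        (∑ k ∈ range (latDist (ee ℤ i j) σ), PowerSeries.X ^ k) *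
        (PowerSeries.mk (fun _ => (1 : ℤ))) ^ n)) =
      2 * ∑ σ ∈ Γ, (PowerSeries.X ^ ((II f (ee ℤ i j) g σ).card + 1) *
        (∑ k ∈ range (latDist (ee ℤ i j) σ), PowerSeries.X ^ k)) := by
    rw [mul_left_comm, Finset.mul_sum]
    congr 1
    apply Finset.sum_congr rfl
    intro σ _
    calc (1 - PowerSeries.X : PowerSeries ℤ) ^ n * (PowerSeries.X ^ ((II f (ee ℤ i j) g σ).card + 1) *
        (∑ k ∈ range (latDist (ee ℤ i j) σ), PowerSeries.X ^ k) *
        (PowerSeries.mk (fun _ => (1 : ℤ))) ^ n) =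
        (PowerSeries.X ^ ((II f (ee ℤ i j) g σ).card + 1) *
        (∑ k ∈ range (latDist (ee ℤ i j) σ), PowerSeries.X ^ k)) *
        ((1 - PowerSeries.X : PowerSeries ℤ) ^ n * (PowerSeries.mk (fun _ => (1 : ℤ))) ^ n) := by ring
      _ = _ := by rw [hinv, mul_one]
  rw [hL]
  have hqs : ∑ c ∈ Γ.image (latDist (ee ℤ i j)), qq (ee ℤ i j) Γ c =
      ∑ σ ∈ Γ, ∑ k ∈ range (latDist (ee ℤ i j) σ),
        (Polynomial.X : Polynomial ℤ) ^ ((II f (ee ℤ i j) g σ).card + k) := by
    rw [← Finset.sum_fiberwise_of_maps_to (g := latDist (ee ℤ i j))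
      (t := Γ.image (latDist (ee ℤ i j))) (fun σ hσ => Finset.mem_image_of_mem _ hσ)]
    apply Finset.sum_congr rfl
    intro c _
    rw [hG.qq_eq hg]
    apply Finset.sum_congr rfl
    intro σ hσ
    rw [(Finset.mem_filter.1 hσ).2]
  rw [hqs]
  have hcoe : ((2 * Polynomial.X * ∑ σ ∈ Γ, ∑ k ∈ range (latDist (ee ℤ i j) σ),
        (Polynomial.X : Polynomial ℤ) ^ ((II f (ee ℤ i j) g σ).card + k) : Polynomial ℤ) :
        PowerSeries ℤ) = 2 * PowerSeries.X * ∑ σ ∈ Γ, ∑ k ∈ range (latDist (ee ℤ i j) σ),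
        (PowerSeries.X : PowerSeries ℤ) ^ ((II f (ee ℤ i j) g σ).card + k) := by
    rw [← Polynomial.coeToPowerSeries.ringHom_apply]
    simp only [map_mul, map_sum, map_pow, map_ofNat]
    simp only [Polynomial.coeToPowerSeries.ringHom_apply, Polynomial.coe_X]
  rw [hcoe, mul_assoc]
  congr 1
  rw [Finset.mul_sum]
  apply Finset.sum_congr rfl
  intro σ _
  rw [Finset.mul_sum, Finset.mul_sum]
  apply Finset.sum_congr rfl
  intro k _
  ring

end

end Q35.HE
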