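import Pool.Agent.Q35.HE.Good

namespace Q35.HE

open Finset Filter Topology
open scoped Pointwise

variable {n : ℕ}

theorem int_point {H : SimpleGraph (Fin n)} {x : Fin n → ℝ} (hx : x ∈ SEP H) {z : Fin n → ℤ}
    (hz : x = fun a => (z a : ℝ)) (hx0 : x ≠ 0) : x ∈ Rt H := by
  have hs : ∑ a, z a = 0 := by
    have h1 : ∑ a, (z a : ℝ) = 0 := by
      have h2 := mem_VV.1 (SEP_subset_VV H hx)
      rw [hz] at h2
      exact h2
    exact_mod_cast h1
  have hz0 : ∃ a, z a ≠ 0 := by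
    by_contra hno
    push Not at hno
    apply hx0
    rw [hz]
    funext a
    simp [hno a]
  obtain ⟨a, -, ha⟩ := Finset.exists_pos_of_sum_zero_of_exists_nonzero (s := Finset.univ) z hs
    (by obtain ⟨a, ha⟩ := hz0; exact ⟨a, Finset.mem_univ a, ha⟩)
  obtain ⟨b, -, hb⟩ := Finset.exists_pos_of_sum_zero_of_exists_nonzero (s := Finset.univ)
    (fun a => -z a) (by rw [Finset.sum_neg_distrib, hs, neg_zero])
    (by obtain ⟨a, ha⟩ := hz0; exact ⟨a, Finset.mem_univ a, neg_ne_zero.2 ha⟩)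
  have hb' : z b < 0 := by simpa using hb
  have hab : a ≠ b := by rintro rfl; omega
  have hxab : ee ℝ a b ⬝ᵥ x = z a - z b := by
    rw [dotProduct_comm, dot_ee, hz]
  have hadj : H.Adj a b := by
    by_contra hnadj
    have h1 : ∀ w ∈ Rt H, ee ℝ a b ⬝ᵥ w ≤ 1 := by
      rintro w ⟨c, d, hcd, rfl⟩
      rw [dot_ee]
      have h2 : ¬ (c = a ∧ d = b) := by
        rintro ⟨rfl, rfl⟩; exact hnadj hcd
      have h3 : c ≠ d := hcd.ne
      simp only [ee, Pi.sub_apply, Pi.single_apply]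
      split_ifs <;> first | (exfalso; simp_all; done) | norm_num
    have h2 := SEP_le h1 x hx
    rw [hxab] at h2
    have h3 : z a - z b ≤ 1 := by exact_mod_cast h2
    omega
  have h2 : ∀ w ∈ Rt H, ee ℝ a b ⬝ᵥ w ≤ 2 := by
    rintro w ⟨c, d, hcd, rfl⟩
    rw [dot_ee]
    simp only [ee, Pi.sub_apply, Pi.single_apply]
    split_ifs <;> norm_num
  have h3 := SEP_le h2 x hx
  rw [hxab] at h3
  have h4 : z a - z b ≤ 2 := by exact_mod_cast h3
  have hza : z a = 1 := by omega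
  have hzb : z b = -1 := by omega
  have hzc : ∀ c, c ≠ a → c ≠ b → z c = 0 := by
    intro c hca hcb
    have key : ∀ t : ℝ, |t| ≤ 1 → t * z c ≤ 0 := by
      intro t ht
      rw [abs_le] at ht
      have h5 : ∀ w ∈ Rt H, (ee ℝ a b + t • Pi.single c 1) ⬝ᵥ w ≤ 2 := by
        rintro w ⟨d, e, hde, rfl⟩
        have hne : d ≠ e := hde.ne
        rw [dot_ee]
        simp only [ee, Pi.add_apply, Pi.smul_apply, Pi.sub_apply, Pi.single_apply, smul_eq_mul]
        split_ifs <;> first | (exfalso; simp_all; done) | (subst_vars; linarith) | (simp_all; done) | (simp_all; linarith)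
      have h6 := SEP_le h5 x hx
      rw [add_dotProduct, hxab, hza, hzb, smul_dotProduct] at h6
      have h7 : (Pi.single c 1 : Fin n → ℝ) ⬝ᵥ x = z c := by
        rw [hz]; simp
      rw [h7, smul_eq_mul] at h6
      push_cast at h6
      linarith
    have k1 := key 1 (by norm_num)
    have k2 := key (-1) (by norm_num)
    have : (z c : ℝ) = 0 := by linarith
    exact_mod_cast this
  refine ⟨a, b, hadj, ?_⟩
  rw [hz, ee_cast]
  funext c
  have : z c = ee ℤ a b c := by
    by_cases h1 : c = a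
    · subst h1
      rw [hza]
      simp [ee, hab]
    · by_cases h2 : c = b
      · subst h2
        rw [hzb]
        simp [ee, h1]
      · rw [hzc c h1 h2]
        simp [ee, h1, h2]
  rw [this]

section
variable {H : SimpleGraph (Fin n)} {i j : Fin n} {Γ : Finset (Finset (Fin n → ℝ))}

theorem simplex_facet (hc : H.Connected) (hne : (Rt H).Nonempty) (hn : 2 ≤ n)
    {v : Fin n → ℝ} (hv : v ∈ VV n) (hT : IsTriangulation (SEP H) v Γ)
    {σ : Finset (Fin n → ℝ)} (hσ : σ ∈ Γ) :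
    (∀ w ∈ σ, w ∈ SEP H) ∧ ∃ u ∈ KK H, (∀ w ∈ σ, u ⬝ᵥ w = 1) ∧ 1 < u ⬝ᵥ v := by
  have hcard : 0 < σ.card := by rw [hT.card σ hσ]; omega
  have hc0 : (0 : ℝ) < σ.card := by exact_mod_cast hcard
  have hSEP : ∀ x ∈ convexHull ℝ (σ : Set (Fin n → ℝ)), x ∈ SEP H := by
    intro x hx
    have h1 : x ∈ ⋃₀ {F | IsVisibleFacet (SEP H) v F} := by
      rw [← hT.cover]
      simp only [Set.mem_iUnion]
      exact ⟨σ, hσ, hx⟩
    obtain ⟨F, ⟨u, c, hu, hF, -, -⟩, hxF⟩ := h1
    rw [hF] at hxF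
    exact hxF.1
  have hw : ∀ w ∈ σ, w ∈ SEP H := fun w hw => hSEP w (subset_convexHull ℝ _ hw)
  refine ⟨hw, ?_⟩
  set b : Fin n → ℝ := ∑ w ∈ σ, (1 / (σ.card : ℝ)) • w with hb
  have hbc : b ∈ convexHull ℝ (σ : Set (Fin n → ℝ)) := by
    apply (convex_convexHull ℝ _).sum_mem
    · intro w _; positivity
    · rw [Finset.sum_const, nsmul_eq_mul]; field_simp
    · intro w hw; exact subset_convexHull ℝ _ hw
  have h1 : b ∈ ⋃₀ {F | IsVisibleFacet (SEP H) v F} := by
    rw [← hT.cover]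
    simp only [Set.mem_iUnion]
    exact ⟨σ, hσ, hbc⟩
  obtain ⟨F, ⟨u, c, hu, hF, -, hvis⟩, hbF⟩ := h1
  rw [hF] at hbF
  have hub := hbF.2
  have huw : ∀ w ∈ σ, u ⬝ᵥ w = c := by
    have hsum : ∑ w ∈ σ, u ⬝ᵥ w = ∑ w ∈ σ, c := by
      rw [hb, dotProduct_sum] at hub
      simp only [dotProduct_smul, smul_eq_mul] at hub
      rw [← Finset.mul_sum] at hub
      rw [Finset.sum_const, nsmul_eq_mul, ← hub]
      field_simp
    exact (Finset.sum_eq_sum_iff_of_le (fun w hw' => hu w (hw w hw'))).1 hsum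
  have hc0' : 0 ≤ c := by
    have := hu 0 (zero_mem_SEP hne)
    simpa using this
  have hcpos : 0 < c := by
    rcases hc0'.eq_or_lt with h | h
    · exfalso
      have hconst : ∀ a b, u a = u b := by
        apply const_of_conn hc
        intro a b hab
        have h1 := hu _ (subset_convexHull ℝ _ ⟨a, b, hab, rfl⟩)
        have h2 := hu _ (subset_convexHull ℝ _ ⟨b, a, hab.symm, rfl⟩)
        rw [dot_ee, ← h] at h1 h2
        linarith
      have := dot_const hconst hv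
      linarith
    · exact h
  refine ⟨c⁻¹ • u, ?_, ?_, ?_⟩
  · rw [mem_KK_iff]
    intro w hw
    rw [smul_dotProduct, smul_eq_mul, inv_mul_le_iff₀ hcpos, mul_one]
    exact hu w (subset_convexHull ℝ _ hw)
  · intro w hw
    rw [smul_dotProduct, smul_eq_mul, huw w hw, inv_mul_cancel₀ hcpos.ne']
  · rw [smul_dotProduct, smul_eq_mul, lt_inv_mul_iff₀ hcpos, mul_one]
    exact hvis

theorem linInd_of_affInd {σ : Finset (Fin n → ℝ)} {u : Fin n → ℝ} (hu : ∀ w ∈ σ, u ⬝ᵥ w = 1)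
    (h : AffineIndependent ℝ (fun w : (σ : Set (Fin n → ℝ)) => (w : Fin n → ℝ))) :
    LinearIndependent ℝ (fun w : (σ : Set (Fin n → ℝ)) => (w : Fin n → ℝ)) := by
  rw [linearIndependent_iff']
  intro s g hg
  rw [affineIndependent_iff] at h
  apply h s g _ hg
  have h1 := congrArg (fun x => u ⬝ᵥ x) hg
  simp only [dotProduct_sum, dotProduct_smul, dotProduct_zero, smul_eq_mul] at h1
  rw [← h1]
  apply Finset.sum_congr rfl
  rintro ⟨w, hw⟩ _
  rw [hu w hw, mul_one]

theorem le_us_aux {f : Finset (Fin n → ℝ) → (Fin n → ℝ) → Fin n → ℤ}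
    {σ : Finset (Fin n → ℝ)} (hroot : ∀ w ∈ σ, w ∈ Rt H) {y : Fin n → ℝ}
    (hrep : y = ∑ w ∈ σ, cc (f σ w) y • w) (h : ∀ w ∈ σ, 0 ≤ cc (f σ w) y) {u : Fin n → ℝ}
    (hu : u ∈ KK H) :
    u ⬝ᵥ y ≤ us f σ y := by
  rw [us_apply]
  conv_lhs => rw [hrep]
  rw [dotProduct_sum]
  apply Finset.sum_le_sum
  intro w hw
  rw [dotProduct_smul, smul_eq_mul]
  have := KK_root hu (hroot w hw)
  nlinarith [h w hw]

theorem exists_good (hc : H.Connected) (hij : i ≠ j)
    (hT : IsTriangulation (SEP H) (ee ℝ i j) Γ) :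
    ∃ f, Good H (ee ℤ i j) Γ f := by
  classical
  have hn : 2 ≤ n := by
    have h1 := i.2
    have h2 := j.2
    have h3 : (i : ℕ) ≠ j := fun h => hij (Fin.ext h)
    omega
  have hne : (Rt H).Nonempty := by
    by_contra hno
    have hconst : ∀ a b : Fin n, (fun x : Fin n => if x = i then (1 : ℝ) else 0) a =
        (fun x : Fin n => if x = i then (1 : ℝ) else 0) b := by
      apply const_of_conn hc
      intro a b hab
      exact absurd ⟨_, a, b, hab, rfl⟩ hno
    have := hconst i j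
    simp [hij.symm] at this
  have hvV : ee ℝ i j ∈ VV n := ee_mem_VV i j
  have hSF := fun σ hσ => simplex_facet hc hne hn hvV hT (σ := σ) hσ
  have hroot : ∀ σ ∈ Γ, ∀ w ∈ σ, w ∈ Rt H := by
    intro σ hσ w hw
    obtain ⟨h1, u, hu, hu1, -⟩ := hSF σ hσ
    obtain ⟨z, hz⟩ := hT.lattice σ hσ w hw
    apply int_point (h1 w hw) hz
    rintro rfl
    have := hu1 0 hw
    simp at this
  have hli : ∀ σ ∈ Γ, LinearIndependent ℝ (fun w : (σ : Set (Fin n → ℝ)) => (w : Fin n → ℝ)) := by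
    intro σ hσ
    obtain ⟨h1, u, hu, hu1, -⟩ := hSF σ hσ
    exact linInd_of_affInd hu1 (hT.indep σ hσ)
  have hex : ∀ σ ∈ Γ, ∀ w ∈ σ, ∃ f : Fin n → ℤ, (∀ a, f a = 0 ∨ f a = 1) ∧
      (fun a => (f a : ℝ)) ⬝ᵥ w = 1 ∧
      ∀ w' ∈ σ, w' ≠ w → (fun a => (f a : ℝ)) ⬝ᵥ w' = 0 := fun σ hσ w hw =>
    exists_dual σ (hroot σ hσ) (hli σ hσ) w hw
  choose! f hf01 hf1 hf0 using hex
  have hrep : ∀ σ ∈ Γ, ∀ x ∈ VV n, x = ∑ w ∈ σ, cc (f σ w) x • w := by
    intro σ hσ x hx
    apply rep_of_dual σ (f σ) (fun w hw => hf1 σ hσ w hw) (fun w hw w' hw' hne => hf0 σ hσ w hw w' hw' hne)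
    rw [span_eq_VV σ (fun w hw => Rt_subset_VV H (hroot σ hσ w hw)) (hli σ hσ) (by omega)
      (hT.card σ hσ)]
    exact hx
  have hfu : ∀ σ ∈ Γ, ∃ u ∈ KK H, (∀ x ∈ VV n, us f σ x = u ⬝ᵥ x) ∧ 1 < u ⬝ᵥ ee ℝ i j := by
    intro σ hσ
    obtain ⟨h1, u, hu, hu1, hu2⟩ := hSF σ hσ
    refine ⟨u, hu, fun x hx => ?_, hu2⟩
    conv_rhs => rw [hrep σ hσ x hx]
    rw [dotProduct_sum, us_apply]
    apply Finset.sum_congr rfl
    intro w hw
    rw [dotProduct_smul, hu1 w hw, smul_eq_mul, mul_one]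
  have htight : ∀ σ ∈ Γ, (∑ w ∈ σ, rr (f σ w)) ∈ KK H := by
    intro σ hσ
    obtain ⟨u, hu, h1, -⟩ := hfu σ hσ
    rw [mem_KK_iff]
    intro w hw
    rw [← us_dot, h1 w (Rt_subset_VV H hw)]
    exact KK_root hu hw
  have hrrv : rr (ee ℤ i j) = ee ℝ i j := (ee_cast i j).symm
  refine ⟨f, ⟨hn, ?_, hT.card, hroot, hf1, hf0, ?_, hrep, htight, ?_, ?_, ?_⟩⟩
  · have : ((∑ a, ee ℤ i j a : ℤ) : ℝ) = 0 := by
      push_cast
      have := sum_ee i j
      rw [ee_cast] at this
      exact this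
    exact_mod_cast this
  · intro σ hσ w hw
    rw [dot_ee_int]
    rcases hf01 σ hσ w hw i with h1 | h1 <;> rcases hf01 σ hσ w hw j with h2 | h2 <;>
      rw [h1, h2] <;> norm_num
  · intro σ hσ
    obtain ⟨u, hu, h1, h2⟩ := hfu σ hσ
    rw [← h1 _ hvV, us_apply, ← hrrv] at h2
    simp only [cc_rr] at h2
    have h3 : (1 : ℤ) < ∑ w ∈ σ, f σ w ⬝ᵥ ee ℤ i j := by exact_mod_cast h2
    omega
  · intro σ hσ τ hτ y hy hyσ hyτ w hw hwτ
    have hus : us f τ y = us f σ y := by
      apply le_antisymm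
      · have := le_us_aux (hroot σ hσ) (hrep σ hσ y hy) hyσ (htight τ hτ)
        rwa [← us_dot] at this
      · have := le_us_aux (hroot τ hτ) (hrep τ hτ y hy) hyτ (htight σ hσ)
        rwa [← us_dot] at this
    have hS0 : 0 ≤ us f σ y := by
      rw [us_apply]; exact Finset.sum_nonneg hyσ
    rcases hS0.eq_or_lt with hS | hS
    · rw [us_apply] at hS
      exact (Finset.sum_eq_zero_iff_of_nonneg hyσ).1 hS.symm w hw
    · have hconv : ∀ ρ ∈ Γ, (∀ w ∈ ρ, 0 ≤ cc (f ρ w) y) → us f ρ y = us f σ y →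
          (us f σ y)⁻¹ • y ∈ convexHull ℝ (ρ : Set (Fin n → ℝ)) := by
        intro ρ hρ hyρ hρσ
        have h1 : (us f σ y)⁻¹ • y = ∑ w ∈ ρ, ((us f σ y)⁻¹ * cc (f ρ w) y) • w := by
          conv_lhs => rw [hrep ρ hρ y hy]
          rw [Finset.smul_sum]
          simp only [smul_smul]
          rw [← hrep ρ hρ y hy]
        rw [h1]
        apply (convex_convexHull ℝ _).sum_mem
        · intro w hw
          exact mul_nonneg (inv_nonneg.2 hS.le) (hyρ w hw)
        · rw [← Finset.mul_sum, ← us_apply, hρσ, inv_mul_cancel₀ hS.ne']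
        · intro w hw
          exact subset_convexHull ℝ _ hw
      have h2 := hT.inter σ hσ τ hτ ⟨hconv σ hσ hyσ rfl, hconv τ hτ hyτ hus⟩
      have h3 : convexHull ℝ ((σ : Set (Fin n → ℝ)) ∩ (τ : Set (Fin n → ℝ))) ⊆
          (LinearMap.ker (cc (f σ w)) : Set (Fin n → ℝ)) := by
        apply convexHull_min _ (LinearMap.ker (cc (f σ w))).convex
        rintro x ⟨hxσ, hxτ⟩
        rw [SetLike.mem_coe, LinearMap.mem_ker]
        apply hf0 σ hσ w hw x hxσ
        rintro rfl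
        exact hwτ hxτ
      have h4 := h3 h2
      rw [SetLike.mem_coe, LinearMap.mem_ker, map_smul, smul_eq_mul] at h4
      exact (mul_eq_zero.1 h4).resolve_left (inv_ne_zero hS.ne')
  · intro y hy hmax
    obtain ⟨u, hu, hum, hut⟩ := exists_facet hc hy
    have hvis := hmax u hu hum
    rw [hrrv] at hvis
    set F : Set (Fin n → ℝ) := {x | x ∈ SEP H ∧ u ⬝ᵥ x = 1} with hF
    have hFv : IsVisibleFacet (SEP H) (ee ℝ i j) F :=
      ⟨u, 1, fun x hx => SEP_le (fun w hw => KK_root hu hw) x hx, rfl, facet_dim hn hut, hvis⟩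
    have hcov : ∀ p ∈ F, ∃ σ ∈ Γ, p ∈ convexHull ℝ (σ : Set (Fin n → ℝ)) := by
      intro p hp
      have : p ∈ ⋃ σ ∈ Γ, convexHull ℝ (σ : Set (Fin n → ℝ)) := by
        rw [hT.cover]
        exact ⟨F, hFv, hp⟩
      simpa only [Set.mem_iUnion, exists_prop] using this
    have hcone : ∀ σ ∈ Γ, ∀ p ∈ convexHull ℝ (σ : Set (Fin n → ℝ)), ∀ w ∈ σ,
        0 ≤ cc (f σ w) p := by
      intro σ hσ p hp w hw
      have h3 : convexHull ℝ (σ : Set (Fin n → ℝ)) ⊆ {x | 0 ≤ cc (f σ w) x} := by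
        apply convexHull_min
        · intro x hx
          by_cases hxw : x = w
          · subst hxw
            change 0 ≤ cc (f σ x) x
            rw [cc_apply]
            have := hf1 σ hσ x hw
            change 0 ≤ (fun a => (f σ x a : ℝ)) ⬝ᵥ x
            rw [this]
            norm_num
          · change 0 ≤ cc (f σ w) x
            have := hf0 σ hσ w hw x hx hxw
            change 0 ≤ (fun a => (f σ w a : ℝ)) ⬝ᵥ x
            rw [this]
        · exact convex_halfSpace_ge (cc (f σ w)).isLinear 0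
      exact h3 hp
    have hr0 : 0 ≤ u ⬝ᵥ y := by
      have := hum 0 (by intro a b _; simp)
      simpa using this
    obtain ⟨p, hp, hyp⟩ := sep hc hne hy hum
    rcases hr0.eq_or_lt with hr | hr
    · obtain ⟨w0, hw0, huw0⟩ := tight_nonempty hn hut
      obtain ⟨σ, hσ, -⟩ := hcov w0 ⟨subset_convexHull ℝ _ hw0, huw0⟩
      refine ⟨σ, hσ, fun w hw => ?_⟩
      have hy0 : y = 0 := by
        rw [← hyp, ← hr]
        simp
      rw [hy0, map_zero]
    · have hpF : p ∈ F := by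
        refine ⟨hp, ?_⟩
        have h1 : u ⬝ᵥ y = (u ⬝ᵥ y) * (u ⬝ᵥ p) := by
          conv_lhs => rw [← hyp]
          simp only [dotProduct_smul, smul_eq_mul]
        have h2 : (u ⬝ᵥ y) * (u ⬝ᵥ p) = (u ⬝ᵥ y) * 1 := by rw [mul_one]; exact h1.symm
        exact mul_left_cancel₀ hr.ne' h2
      obtain ⟨σ, hσ, hpσ⟩ := hcov p hpF
      refine ⟨σ, hσ, fun w hw => ?_⟩
      rw [← hyp]
      simp only [map_smul, smul_eq_mul]
      exact mul_nonneg hr.le (hcone σ hσ p hpσ w hw)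

end

section
variable {H : SimpleGraph (Fin n)} {v : Fin n → ℤ} {Γ : Finset (Finset (Fin n → ℝ))}
    {f : Finset (Fin n → ℝ) → (Fin n → ℝ) → Fin n → ℤ}

theorem Good.us_root (hG : Good H v Γ f) {σ : Finset (Fin n → ℝ)} (hσ : σ ∈ Γ) {w : Fin n → ℝ}
    (hw : w ∈ σ) : us f σ w = 1 := by
  rw [us_apply, Finset.sum_eq_single w]
  · exact hG.dual1 σ hσ w hw
  · intro w' hw' hne
    exact hG.dual0 σ hσ w' hw' w hw hne.symm
  · intro h
    exact absurd hw h

theorem us_int (σ : Finset (Fin n → ℝ)) (x : Fin n → ℝ) :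
    us f σ x = ∑ a, ((∑ w ∈ σ, f σ w) a : ℝ) * x a := by
  rw [us_dot]
  simp only [dotProduct]
  apply Finset.sum_congr rfl
  intro a _
  congr 1
  simp [rr, Finset.sum_apply]

theorem us_rr (σ : Finset (Fin n → ℝ)) (x : Fin n → ℤ) :
    us f σ (rr x) = (((∑ w ∈ σ, f σ w) ⬝ᵥ x : ℤ) : ℝ) := by
  rw [us_int]
  simp [rr, dotProduct]

theorem Good.latDist_eq (hG : Good H v Γ f) {σ : Finset (Fin n → ℝ)} (hσ : σ ∈ Γ) :
    latDist v σ = (hh f v σ).toNat := by
  have hn := hG.hn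
  have hcard : 0 < σ.card := by rw [hG.card σ hσ]; omega
  obtain ⟨w0, hw0⟩ := Finset.card_pos.1 hcard
  have hh1 := hG.one_le_hh hσ
  have hset : {h | IsLatDist v σ h} = {(hh f v σ).toNat} := by
    ext h
    simp only [Set.mem_singleton_iff]
    constructor
    · rintro ⟨u, c, ⟨x, hx0, hx1⟩, haff, hh⟩
      have hw : ∀ w ∈ σ, rr u ⬝ᵥ w = c := by
        intro w hw
        have h1 : w ∈ ((affineSpan ℝ (σ : Set (Fin n → ℝ)) :
            AffineSubspace ℝ (Fin n → ℝ)) : Set (Fin n → ℝ)) := subset_affineSpan ℝ _ hw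
        rw [haff] at h1
        exact h1.2
      have hux : ∀ y ∈ VV n, rr u ⬝ᵥ y = c * us f σ y := by
        intro y hy
        conv_lhs => rw [hG.rep σ hσ y hy]
        rw [dotProduct_sum, us_apply, Finset.mul_sum]
        apply Finset.sum_congr rfl
        intro w hw'
        rw [dotProduct_smul, hw w hw', smul_eq_mul, mul_comm]
      have h1 := hux _ (rr_mem_VV hx0)
      rw [us_rr, ← cc_apply, cc_rr, hx1] at h1
      have h2 : (1 : ℤ) = c * ((∑ w ∈ σ, f σ w) ⬝ᵥ x) := by exact_mod_cast h1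
      have h3 : c = 1 ∨ c = -1 := Int.isUnit_iff.1 (IsUnit.of_mul_eq_one _ h2.symm)
      have h4 := hux _ (rr_mem_VV hG.hv)
      rw [us_v, ← cc_apply, cc_rr] at h4
      have h5 : u ⬝ᵥ v = c * (Q35.HE.hh f v σ + 1) := by exact_mod_cast h4
      rw [h5] at hh
      rcases h3 with h3 | h3
      · rw [h3] at hh
        have : |1 * (Q35.HE.hh f v σ + 1) - 1| = Q35.HE.hh f v σ := by
          rw [abs_of_nonneg] <;> omega
        rw [this] at hh
        omega
      · rw [h3] at hh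
        have : |-1 * (Q35.HE.hh f v σ + 1) - -1| = Q35.HE.hh f v σ := by
          rw [abs_of_nonpos] <;> omega
        rw [this] at hh
        omega
    · rintro rfl
      obtain ⟨a, b, -, hab⟩ := hG.root σ hσ w0 hw0
      refine ⟨∑ w ∈ σ, f σ w, 1, ⟨ee ℤ a b, ?_, ?_⟩, ?_, ?_⟩
      · have : ((∑ x, ee ℤ a b x : ℤ) : ℝ) = 0 := by
          push_cast
          have := sum_ee a b
          rw [ee_cast] at this
          exact this
        exact_mod_cast this
      · have h1 := hG.us_root hσ hw0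
        rw [hab, ee_cast] at h1
        change us f σ (rr (ee ℤ a b)) = 1 at h1
        rw [us_rr] at h1
        exact_mod_cast h1
      · ext x
        constructor
        · intro hx
          refine affineSpan_induction (p := fun x => x ∈ {x : Fin n → ℝ | ∑ a, x a = 0 ∧
            ∑ a, ((∑ w ∈ σ, f σ w) a : ℝ) * x a = (1 : ℤ)}) hx ?_ ?_
          · intro w hw
            refine ⟨mem_VV.1 (Rt_subset_VV H (hG.root σ hσ w hw)), ?_⟩
            rw [← us_int, hG.us_root hσ hw]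
            norm_num
          · rintro c x y z ⟨hx1, hx2⟩ ⟨hy1, hy2⟩ ⟨hz1, hz2⟩
            rw [← us_int] at hx2 hy2 hz2
            refine ⟨?_, ?_⟩
            · exact (VV n).add_mem ((VV n).smul_mem c ((VV n).sub_mem hx1 hy1)) hz1
            · rw [← us_int]
              simp only [vsub_eq_sub, vadd_eq_add]
              rw [map_add, map_smul, map_sub, hx2, hy2, hz2]
              simp
        · rintro ⟨hx1, hx2⟩
          rw [← us_int] at hx2
          have h1 : x = (∑ w ∈ σ, cc (f σ w) x • (w - w0)) +ᵥ w0 := by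
            rw [vadd_eq_add]
            simp only [smul_sub]
            rw [Finset.sum_sub_distrib, ← Finset.sum_smul, ← us_apply, hx2, ← hG.rep σ hσ x hx1]
            simp
          rw [h1]
          apply AffineSubspace.vadd_mem_of_mem_direction
          · rw [direction_affineSpan]
            apply Submodule.sum_mem
            intro w hw
            apply Submodule.smul_mem
            exact vsub_mem_vectorSpan ℝ hw hw0
          · exact mem_affineSpan ℝ hw0
      · have h4 := us_v (f := f) (v := v) σ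
        rw [us_rr] at h4
        have h5 : (∑ w ∈ σ, f σ w) ⬝ᵥ v = Q35.HE.hh f v σ + 1 := by exact_mod_cast h4
        rw [h5, abs_of_nonneg] <;> omega
  rw [latDist, hset]
  exact csInf_singleton _

end

end Q35.HE
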